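import Pool.Agent.K3h82.BP.Core
import Pool.Agent.R925.FD.SecPt

/-!
# Birational sections of the twists by a prime of `y² = x⁵ - x`
-/

set_option autoImplicit false
set_option linter.all false

open Polynomial Pool.Agent.TH954 IsDedekindDomain NumberField Pool.Agent.TH213.SEL
  Pool.Agent.TH942

namespace Pool.Agent.K3h82.BP

attribute [-instance] DivisionRing.toRatAlgebra
attribute [local instance 1] DivisionRing.toRatAlgebra

theorem shortInt4 {a : ℚ} (ha : a = 1 ∨ a = -1 ∨ a = 4 ∨ a = -4) : ShortInt (sw a (0 : ℚ)) := by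
  have hi : IsIntegral ℤ a := by
    rcases ha with rfl | rfl | rfl | rfl
    · exact_mod_cast int_rat 1
    · exact_mod_cast int_rat (-1)
    · exact_mod_cast int_rat 4
    · exact_mod_cast int_rat (-4)
  have h0 : a ≠ 0 := by
    rcases ha with rfl | rfl | rfl | rfl <;> norm_num
  exact {
    h1 := rfl
    h2 := rfl
    h3 := rfl
    ia := hi
    ib := isIntegral_zero
    disc := by
      change 4 * a ^ 3 + 27 * (0 : ℚ) ^ 2 ≠ 0
      have := pow_ne_zero 3 h0
      simpa using this }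

theorem crdE_map {F Ω : Type} [Field F] [Field Ω] [Algebra F Ω] [CharZero F] [CharZero Ω]
    (b : Bool) (k : ℚ) (x : F) :
    algebraMap F Ω (crdE b k x) = crdE b k (algebraMap F Ω x) := by
  unfold crdE
  split_ifs
  · rw [map_mul, map_ratCast]
  · rw [map_mul, map_ratCast, map_div₀, map_add, map_sub, map_one]

theorem crdE_ne {F : Type} [Field F] [CharZero F] {x : F} (hx : ∀ e : ℚ, x ≠ e) (b : Bool)
    {k : ℚ} (hk : k ≠ 0) (c : ℚ) : crdE b k x ≠ c := by
  have hkF : (k : F) ≠ 0 := by exact_mod_cast hk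
  unfold crdE
  split_ifs
  · intro h
    apply hx (c / k)
    push_cast
    rw [← h]
    field_simp
  · intro h
    have hx1 : x - 1 ≠ 0 := sub_ne_zero.2 (by exact_mod_cast hx 1)
    have h1 : (k : F) * (x + 1) = c * (x - 1) := by
      rw [← h]
      field_simp
    by_cases hck : c = k
    · rw [hck] at h1
      have h2 := mul_left_cancel₀ hkF h1
      have h3 : (2 : F) = 0 := by linear_combination h2
      exact two_ne_zero h3
    · have h2 : ((c - k : ℚ) : F) ≠ 0 := by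
        exact_mod_cast sub_ne_zero.2 hck
      apply hx ((c + k) / (c - k))
      rw [Rat.cast_div, eq_div_iff h2]
      push_cast
      linear_combination (-1) * h1

/-- **birational sections of the twists by a prime** -/
theorem bir {p : ℕ} (hp : p.Prime) {d : ℤ} (hd : d ∣ 2 * p)
    {M0 : ℕ} (hM1 : 1 ≤ M0)
    (hM : ∀ a : ℚ, (a = 1 ∨ a = -1 ∨ a = 4 ∨ a = -4) → ShaKilledBy (sw a (0 : ℚ)) M0)
    {F Ω B : Type} [Field F] [Field Ω] [Field B] [Algebra ℚ F] [Algebra F Ω] [Algebra ℚ Ω]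
    [Algebra ℚ B] [IsScalarTower ℚ F Ω] [IsAlgClosure F Ω] [IsAlgClosure ℚ B] (x : F)
    (hx : Transcendental ℚ x) (hF : Algebra.IsAlgebraic (IntermediateField.adjoin ℚ {x}) F)
    (s : GalSection ℚ F Ω B) (hs : LocGeo s) (y : Ω) (hy : ∀ g, s.s g y = y)
    (hxy : (d : Ω) * y ^ 2 = algebraMap F Ω (x ^ 5 - x)) :
    ∃ O : ValuationSubring F, s.ArisesFrom O ∧
      (∀ O' : ValuationSubring F, s.ArisesFrom O' → O' = O) ∧ Pos O x := by
  haveI hΩ1 : IsAlgClosed Ω := IsAlgClosure.isAlgClosed F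
  haveI hΩ2 : Algebra.IsAlgebraic F Ω := IsAlgClosure.isAlgebraic
  haveI hcF : CharZero F := charZero_of_injective_algebraMap (algebraMap ℚ F).injective
  haveI hcΩ : CharZero Ω :=
    charZero_of_injective_algebraMap (algebraMap F Ω).injective
  choose pl hpl using fun v => hs v
  have hxe : ∀ e : ℚ, x ≠ e := by
    intro e h
    apply hx
    rw [h, ← eq_ratCast (algebraMap ℚ F) e]
    exact isAlgebraic_algebraMap e
  obtain ⟨c, w, hc, hw, hcw⟩ := exists_cw hp hd x hx s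
    (fun j => IsAlgClosed.exists_pow_nat_eq _ two_pos) y hy hxy pl hpl
  have hX1 : algebraMap F Ω x - 1 ≠ 0 := by
    intro h
    have h1 : algebraMap F Ω (x - 1) = 0 := by rw [map_sub, map_one, h]
    have h2 := (map_eq_zero (algebraMap F Ω)).1 h1
    apply hxe 1
    rw [Rat.cast_one]
    linear_combination h2
  obtain ⟨b, k, a, e, n, hk, hE⟩ := exists_ell hX1 hc hcw
  have hk0 : k ≠ 0 := by
    rcases hk with ⟨-, h⟩ | ⟨-, h⟩
    · rcases h with ⟨-, rfl | rfl⟩ | ⟨-, rfl | rfl⟩ | ⟨-, rfl | rfl⟩ | ⟨-, rfl | rfl⟩ <;> norm_num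
    · rcases h with ⟨-, rfl | rfl⟩ | ⟨-, rfl | rfl⟩ <;> norm_num
  have ha : a = 1 ∨ a = -1 ∨ a = 4 ∨ a = -4 := by
    rcases hk with ⟨-, h⟩ | ⟨-, h⟩
    · rcases h with ⟨h, -⟩ | ⟨h, -⟩ | ⟨h, -⟩ | ⟨h, -⟩ <;> simp [h]
    · rcases h with ⟨h, -⟩ | ⟨h, -⟩ <;> simp [h]
  obtain ⟨O, hO1, hO2, hO3⟩ := Pool.Agent.R925.FD.bir_pt' (k := ℚ) (a := a) (b := 0)
    (shortInt4 ha) (finite4 ha) hM1 (hM a ha) s hs ⟨x, hx, hF⟩ (crdE b k x)
    (fun c' h => crdE_ne hxe b hk0 c' (by rw [h, eq_ratCast]))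
    ((e : Ω) * w * (algebraMap F Ω x - 1)⁻¹ ^ n)
    (fun g => by
      rw [map_mul, map_mul, hw, map_pow, map_inv₀, map_sub, (s.s g).commutes, map_one,
        map_ratCast])
    (by
      rw [hE, crdE_map, map_zero, add_zero, eq_ratCast])
  have hOQ : ∀ e : ℚ, (e : F) ∈ O := by
    intro e
    rw [← eq_ratCast (algebraMap ℚ F) e]
    exact hO1.2.1 e
  obtain ⟨p1, p2⟩ := pos_crdE hOQ hxe b hk
  refine ⟨O, hO1, hO2, ?_⟩
  rcases hO3 with h | ⟨a', b', h', h⟩
  · exact p1 h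
  · refine p2 a' b' ?_ (by rwa [eq_ratCast] at h)
    have h1 := sw_eqn.1 h'.1
    rw [h1, add_zero]

end Pool.Agent.K3h82.BP
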