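import Mathlib

/-!
# Rational numbers with even valuations at the odd primes
-/

set_option autoImplicit false

namespace Pool.Agent.K3h82.BP

theorem cls_two {D : ℚ} (hD : D ≠ 0) (h : ∀ q : ℕ, q.Prime → q ≠ 2 → Even (padicValRat q D)) :
    ∃ c r : ℚ, r ≠ 0 ∧ D = c * r ^ 2 ∧ (c = 1 ∨ c = -1 ∨ c = 2 ∨ c = -2) := by
  have hn0 : D.num * (D.den : ℤ) ≠ 0 :=
    mul_ne_zero (Rat.num_ne_zero.2 hD) (by exact_mod_cast D.den_ne_zero)
  obtain ⟨a, b, hb, ha, hab, hsq⟩ := Nat.sq_mul_squarefree_of_pos (Int.natAbs_pos.2 hn0)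
  obtain ⟨m, hm, hmn⟩ : ∃ m : ℤ, (m = a ∨ m = -a) ∧ D.num * (D.den : ℤ) = m * (b : ℤ) ^ 2 := by
    have habZ : ((D.num * (D.den : ℤ)).natAbs : ℤ) = (b : ℤ) ^ 2 * a := by
      rw [← hab]
      push_cast
      ring
    rcases Int.natAbs_eq (D.num * (D.den : ℤ)) with h1 | h1
    · exact ⟨a, Or.inl rfl, by rw [h1, habZ]; ring⟩
    · exact ⟨-a, Or.inr rfl, by rw [h1, habZ]; ring⟩
  have hden : (D.den : ℚ) ≠ 0 := by exact_mod_cast D.den_ne_zero
  have hbQ : (b : ℚ) ≠ 0 := by
    have : b ≠ 0 := by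
      rintro rfl
      apply hn0
      rw [hmn]
      simp
    exact_mod_cast this
  have hDm : D = m * (b / D.den) ^ 2 := by
    have h1 : (D.num : ℚ) = D * D.den := (Rat.mul_den_eq_num D).symm
    have h2 : (D.num : ℚ) * D.den = m * b ^ 2 := by exact_mod_cast hmn
    rw [h1] at h2
    field_simp
    linear_combination h2
  have hm0 : m ≠ 0 := by
    rintro rfl
    rw [zero_mul] at hmn
    exact hn0 hmn
  have hmQ : (m : ℚ) ≠ 0 := by exact_mod_cast hm0
  have hr0 : (b : ℚ) / D.den ≠ 0 := div_ne_zero hbQ hden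
  have hmabs : m.natAbs = a := by
    rcases hm with h2 | h2 <;> rw [h2] <;> simp
  -- no odd prime divides `m`
  have hodd : ∀ q : ℕ, q.Prime → q ∣ a → q = 2 := by
    intro q hq hqa
    by_contra hq2
    have : Fact q.Prime := ⟨hq⟩
    have h1 := h q hq hq2
    rw [hDm, padicValRat.mul hmQ (pow_ne_zero 2 hr0), padicValRat.pow, padicValRat.of_int] at h1
    have h3 : padicValInt q m = padicValNat q a := by
      unfold padicValInt
      rw [hmabs]
    rw [h3] at h1
    have ha0 : a ≠ 0 := by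
      rintro rfl
      apply hm0
      rcases hm with h2 | h2 <;> rw [h2] <;> simp
    have h4 : padicValNat q a = 1 := by
      have h5 : 1 ≤ padicValNat q a := one_le_padicValNat_of_dvd ha0 hqa
      have h6 : padicValNat q a ≤ 1 := by
        by_contra h7
        have h8 : q ^ 2 ∣ a := (padicValNat_dvd_iff_le ha0).2 (by omega)
        have h9 : IsUnit q := hsq q (by rwa [← sq])
        exact hq.one_lt.ne' (Nat.isUnit_iff.1 h9)
      omega
    rw [h4] at h1
    obtain ⟨t, ht⟩ := h1
    push_cast at ht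
    omega
  have ha2 : a = 1 ∨ a = 2 := by
    have ha0 : a ≠ 0 := by
      rintro rfl
      apply hm0
      rcases hm with h2 | h2 <;> rw [h2] <;> simp
    rcases Nat.eq_two_pow_or_exists_odd_prime_and_dvd a with ⟨k, hk⟩ | ⟨q, hq, hqa, hqo⟩
    · have hk1 : k ≤ 1 := by
        by_contra hk2
        have h8 : 2 * 2 ∣ a := by
          rw [hk]
          exact pow_dvd_pow 2 (by omega : 2 ≤ k)
        have h9 := hsq 2 h8
        exact absurd (Nat.isUnit_iff.1 h9) (by norm_num)
      interval_cases k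
      · left; simpa using hk
      · right; simpa using hk
    · exact absurd (hodd q hq hqa) (by
        rintro rfl
        exact absurd hqo (by decide))
  refine ⟨m, b / D.den, hr0, hDm, ?_⟩
  rcases ha2 with h1 | h1 <;> rcases hm with h2 | h2 <;> rw [h2, h1]
  · left; norm_num
  · right; left; norm_num
  · right; right; left; norm_num
  · right; right; right; norm_num

end Pool.Agent.K3h82.BP
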