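import Pool.Agent.K3h82.BP.Pos

/-!
# The genus one quotients of a section over `ℚ` with local points
-/

set_option autoImplicit false
set_option linter.all false

open Polynomial Pool.Agent.TH954 IsDedekindDomain NumberField Pool.Agent.TH213.SEL
  Pool.Agent.TH942

namespace Pool.Agent.K3h82.BP

attribute [-instance] DivisionRing.toRatAlgebra
attribute [local instance 1] DivisionRing.toRatAlgebra

variable {F M B : Type} [Field F] [Field M] [Field B] [Algebra ℚ F] [Algebra F M]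
  [Algebra ℚ M] [IsScalarTower ℚ F M] [Algebra ℚ B] [IsAlgClosure ℚ B]
  [Algebra.IsAlgebraic F M]

theorem exists_cw {p : ℕ} (hp : p.Prime) {d : ℤ} (hd : d ∣ 2 * p) (x : F)
    (hx : Transcendental ℚ x) (s : GalSection ℚ F M B)
    (hW : ∀ j, ∃ W : M, W ^ 2 = algebraMap F M (aeval x (gA j))) (y : M)
    (hy : ∀ g, s.s g y = y) (hxy : (d : M) * y ^ 2 = algebraMap F M (x ^ 5 - x))
    (pl : ∀ v : HeightOneSpectrum (𝓞 ℚ), Plc ℚ M (AlgebraicClosure (v.adicCompletion ℚ)))
    (hpl : ∀ v, s.GivenBy (v.adicCompletion ℚ) (pl v)) :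
    ∃ (c : ℚ) (w : M), (c = 1 ∨ c = -1 ∨ c = 2 ∨ c = -2) ∧ (∀ g, s.s g w = w) ∧
      ((c : M) * w ^ 2 = algebraMap F M x ^ 4 - 1 ∨
        (c : M) * w ^ 2 = algebraMap F M x ^ 3 - algebraMap F M x ∨
        (c : M) * w ^ 2 = algebraMap F M x ^ 3 + algebraMap F M x) := by
  haveI : Fact p.Prime := ⟨hp⟩
  have hd0 : d ≠ 0 := by
    rintro rfl
    have h1 := zero_dvd_iff.1 hd
    have : (p : ℤ) ≠ 0 := by exact_mod_cast hp.ne_zero
    omega
  obtain ⟨j, D, w, hD, hw, hDp, hDw⟩ := exists_par x hx s hW p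
  have hx0 : x ≠ 0 := by
    rintro rfl
    exact hx isAlgebraic_zero
  have hne : ∀ q : ℚ[X], q ≠ 0 → aeval x q ≠ 0 := by
    intro q hq h0
    exact hx ⟨q, hq, h0⟩
  have hf0 : x ^ 4 - 1 ≠ 0 := by
    have h1 := hne (X ^ 4 - C 1) (X_pow_sub_C_ne_zero (by norm_num) 1)
    simpa using h1
  have hX0 : algebraMap F M x ≠ 0 := (_root_.map_ne_zero _).2 hx0
  have hY0 : y ≠ 0 := by
    rintro rfl
    rw [zero_pow two_ne_zero, mul_zero] at hxy
    have h1 := (map_eq_zero (algebraMap F M)).1 hxy.symm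
    have h2 : x * (x ^ 4 - 1) = 0 := by linear_combination h1
    exact mul_ne_zero hx0 hf0 h2
  have hdY : algebraMap ℚ M (d : ℚ) * y ^ 2 = algebraMap F M x ^ 5 - algebraMap F M x := by
    rw [map_intCast, hxy, map_sub, map_pow]
  have hor : algebraMap ℚ M D * w ^ 2 = algebraMap F M x ^ 4 - 1 ∨
      algebraMap ℚ M D * w ^ 2 = algebraMap F M x ^ 3 - algebraMap F M x ∨
      algebraMap ℚ M D * w ^ 2 = algebraMap F M x ^ 3 + algebraMap F M x := by
    rw [hDw]
    fin_cases j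
    · left; simp [gA]
    · right; left; simp [gA]
    · right; right; simp [gA]
  have hev : ∀ q : ℕ, q.Prime → q ≠ 2 → Even (padicValRat q D) := by
    intro q hq hq2
    by_cases hqp : q = p
    · rw [hqp]; exact hDp
    haveI : Fact q.Prime := ⟨hq⟩
    obtain ⟨v, ψ, -⟩ := exists_psi q
    refine even_loc ψ (hpl v) hq2 (d := d) ?_ (fun g => (s.s g).commutes x) hy hw hX0 hY0 hdY hD hor
    have h1 : ‖((d : ℤ) : ℚ_[q])‖ = 1 := by
      have h2 : ¬ (q : ℤ) ∣ d := by
        intro h3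
        have h4 := h3.trans hd
        have h5 : q ∣ 2 * p := by exact_mod_cast h4
        rcases (Nat.Prime.dvd_mul hq).1 h5 with h6 | h6
        · exact hq2 ((Nat.prime_dvd_prime_iff_eq hq Nat.prime_two).1 h6)
        · exact hqp ((Nat.prime_dvd_prime_iff_eq hq hp).1 h6)
      have h3 := Padic.norm_int_le_one (p := q) d
      exact le_antisymm h3 (not_lt.1 fun h4 => h2 ((Padic.norm_intCast_lt_one_iff).1 h4))
    exact_mod_cast h1
  obtain ⟨c, r, hr, hDc, hc⟩ := cls_two hD hev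
  refine ⟨c, algebraMap ℚ M r * w, hc, fun g => ?_, ?_⟩
  · rw [map_mul, hw]
    congr 1
    rw [IsScalarTower.algebraMap_apply ℚ F M, (s.s g).commutes]
  · have h1 : (c : M) * (algebraMap ℚ M r * w) ^ 2 = algebraMap ℚ M D * w ^ 2 := by
      rw [hDc, map_mul, map_pow, eq_ratCast (algebraMap ℚ M) c]
      ring
    rw [h1]
    exact hor

end Pool.Agent.K3h82.BP
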