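import Pool.Agent.TH954.SBir

/-!
# Definitions for the sections over function fields over `ℚ`
-/

set_option autoImplicit false
set_option linter.all false

open IsDedekindDomain NumberField Pool.Agent.TH954

namespace Pool.Agent.K3h82.BP

/-- The section `s` is given by a rational point over the completions of `k` at all finite
places. -/
def LocGeo {k F Ω B : Type} [Field k] [NumberField k] [Field F] [Field Ω] [Field B]
    [Algebra F Ω] [Algebra k Ω] [Algebra k B] (s : GalSection k F Ω B) : Prop :=
  ∀ v : HeightOneSpectrum (𝓞 k),
    s.GeometricOver (v.adicCompletion k) (AlgebraicClosure (v.adicCompletion k))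

/-- `x` has the value `∞`, `0`, `1` or `-1` at the point with local ring `O`. -/
def Pos {L : Type} [Field L] (O : ValuationSubring L) (x : L) : Prop :=
  x ∉ O ∨ x⁻¹ ∉ O ∨ (x - 1)⁻¹ ∉ O ∨ (x + 1)⁻¹ ∉ O

end Pool.Agent.K3h82.BP
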