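import Pool.Agent.TH954.SEt2

/-!
# Sections given by local points
-/

set_option autoImplicit false
set_option linter.all false

open IsDedekindDomain NumberField Pool.Agent.TH954

namespace Pool.Agent.K3h82.BP

/-- For every finite place `v` of the number field `k` a place of `M` over `k` with values in an
algebraic closure of the completion of `k` at `v`. -/
def Places (k M : Type) [Field k] [NumberField k] [Field M] [Algebra k M] : Type :=
  ∀ v : HeightOneSpectrum (𝓞 k), Plc k M (AlgebraicClosure (v.adicCompletion k))

variable {k F M B : Type} [Field k] [NumberField k] [Field F] [Field M] [Field B] [Algebra F M]
  [Algebra k M] [Algebra k B]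

/-- The section `s` of `Gal(M/F) → G_k` is given over the completion of `k` at every finite place by
the local point `p v`: whenever `σ` in the absolute Galois group of the completion and `g` in the one
of `k` are compatible, the place `p v` turns the action of `s g` into the one of `σ`. -/
def IsGivenBy (s : GalSection k F M B) (p : Places k M) : Prop :=
  ∀ v : HeightOneSpectrum (𝓞 k), s.GivenBy (v.adicCompletion k) (p v)

/-- The function `f` has the value `0` at all the local points. -/
def VanishesAt (p : Places k M) (f : F) : Prop :=
  ∀ v : HeightOneSpectrum (𝓞 k), (p v).val (algebraMap F M f) 0

end Pool.Agent.K3h82.BP
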