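import Mathlib
import Pool.Agent.Helper653.CubFermat
import Pool.Agent.TH942.Par

/-!
# The elliptic curves `y ^ 2 = x ^ 3 + a x`, `a = 1, -1, 4, -4`
-/

set_option autoImplicit false

namespace Pool.Agent.K3h82.BP

open Pool.Agent.TH942 WeierstrassCurve

theorem int_rat (m : ℤ) : _root_.IsIntegral ℤ (m : ℚ) := by
  have h := isIntegral_algebraMap (R := ℤ) (A := ℚ) (x := m)
  rwa [show algebraMap ℤ ℚ m = (m : ℚ) from rfl] at h

theorem not_sq_two : ¬ IsSquare (2 : ℚ) := by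
  rintro ⟨r, hr⟩
  have h4 : IsSquare (2 : ℤ) := by
    rw [← Rat.isSquare_intCast_iff]
    exact ⟨r, by exact_mod_cast hr⟩
  obtain ⟨z, hz⟩ := h4
  have h1 : z ≤ 1 := by nlinarith
  have h2 : -1 ≤ z := by nlinarith
  interval_cases z <;> omega

theorem fermat_sub_rat {u v : ℚ} (h : v ^ 2 = u ^ 4 - 1) : v = 0 := by
  have hd : (u.den : ℚ) ≠ 0 := by exact_mod_cast u.den_ne_zero
  -- clear denominators: `v * den ^ 2` is an integer
  have h1 : (v * (u.den : ℚ) ^ 2) ^ 2 = ((u.num ^ 4 - (u.den : ℤ) ^ 4 : ℤ) : ℚ) := by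
    have h2 : (u.num : ℚ) = u * u.den := (Rat.mul_den_eq_num u).symm
    push_cast
    rw [h2]
    linear_combination (u.den : ℚ) ^ 4 * h
  obtain ⟨z, hz⟩ : ∃ z : ℤ, (z : ℚ) = v * (u.den : ℚ) ^ 2 := by
    have h3 : _root_.IsIntegral ℤ (v * (u.den : ℚ) ^ 2) := by
      refine _root_.IsIntegral.of_pow two_pos ?_
      rw [h1]
      exact int_rat _
    obtain ⟨z, hz⟩ := IsIntegrallyClosed.isIntegral_iff.1 h3
    exact ⟨z, hz⟩
  rw [← hz] at h1
  have h4 : u.num ^ 4 - (u.den : ℤ) ^ 4 = z ^ 2 := by exact_mod_cast h1.symm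
  rcases cub_fermat_sub _ _ _ h4 with h5 | h5
  · exact absurd (by exact_mod_cast h5) hd
  · rw [h5] at hz
    push_cast at hz
    exact (mul_eq_zero.1 hz.symm).resolve_right (pow_ne_zero 2 hd)

theorem fermat_add_rat {u v : ℚ} (h : v ^ 2 = u ^ 4 + 1) : u = 0 := by
  by_contra hu
  have hd : (u.den : ℚ) ≠ 0 := by exact_mod_cast u.den_ne_zero
  have h1 : (v * (u.den : ℚ) ^ 2) ^ 2 = ((u.num ^ 4 + (u.den : ℤ) ^ 4 : ℤ) : ℚ) := by
    have h2 : (u.num : ℚ) = u * u.den := (Rat.mul_den_eq_num u).symm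
    push_cast
    rw [h2]
    linear_combination (u.den : ℚ) ^ 4 * h
  obtain ⟨z, hz⟩ : ∃ z : ℤ, (z : ℚ) = v * (u.den : ℚ) ^ 2 := by
    have h3 : _root_.IsIntegral ℤ (v * (u.den : ℚ) ^ 2) := by
      refine _root_.IsIntegral.of_pow two_pos ?_
      rw [h1]
      exact int_rat _
    obtain ⟨z, hz⟩ := IsIntegrallyClosed.isIntegral_iff.1 h3
    exact ⟨z, hz⟩
  rw [← hz] at h1
  have h4 : u.num ^ 4 + (u.den : ℤ) ^ 4 = z ^ 2 := by exact_mod_cast h1.symm
  exact not_fermat_42 (Rat.num_ne_zero.2 hu) (by exact_mod_cast u.den_ne_zero) h4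

/-- `y ^ 2 = x ^ 3 + 4 x` -/
theorem pts4 {x y : ℚ} (h : y ^ 2 = x ^ 3 + 4 * x) : x = 0 ∨ x = 2 := by
  by_cases hx : x = 0
  · exact Or.inl hx
  right
  have hu : (y / (2 * x)) ^ 2 = (x ^ 2 + 4) / (4 * x) := by
    rw [div_pow, h]
    field_simp
    ring
  have h1 : (x / 2 - (y / (2 * x)) ^ 2) ^ 2 = (y / (2 * x)) ^ 4 - 1 := by
    have h2 : (y / (2 * x)) ^ 4 = ((y / (2 * x)) ^ 2) ^ 2 := by ring
    rw [h2, hu]
    field_simp
    ring
  have h3 := fermat_sub_rat h1
  have h4 : (y / (2 * x)) ^ 2 = x / 2 := by linarith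
  rw [h4] at h1
  have h5 : (y / (2 * x)) ^ 4 = 1 := by
    rw [h4, sub_self] at h3
    linear_combination -h1
  have h6 : (x / 2) ^ 2 = 1 := by
    rw [← h4, ← pow_mul]
    exact h5
  have h7 : (x / 2 - 1) * (x / 2 + 1) = 0 := by linear_combination h6
  rcases mul_eq_zero.1 h7 with h8 | h8
  · linarith
  · have h9 : x / 2 = -1 := by linarith
    rw [h9] at h4
    nlinarith [sq_nonneg (y / (2 * x))]

/-- `y ^ 2 = x ^ 3 - 4 x` -/
theorem ptsm4 {x y : ℚ} (h : y ^ 2 = x ^ 3 - 4 * x) : x = 0 ∨ x = 2 ∨ x = -2 := by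
  by_cases hx : x = 0
  · exact Or.inl hx
  right
  have hu : (y / (2 * x)) ^ 2 = (x ^ 2 - 4) / (4 * x) := by
    rw [div_pow, h]
    field_simp
    ring
  have h1 : (x / 2 - (y / (2 * x)) ^ 2) ^ 2 = (y / (2 * x)) ^ 4 + 1 := by
    have h2 : (y / (2 * x)) ^ 4 = ((y / (2 * x)) ^ 2) ^ 2 := by ring
    rw [h2, hu]
    field_simp
    ring
  have h3 := fermat_add_rat h1
  rw [h3, zero_pow two_ne_zero] at hu
  have h4 : x ^ 2 - 4 = 0 := by
    have h5 := hu.symm
    rw [div_eq_zero_iff] at h5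
    exact h5.resolve_right (mul_ne_zero (by norm_num) hx)
  have h5 : (x - 2) * (x + 2) = 0 := by linear_combination h4
  rcases mul_eq_zero.1 h5 with h6 | h6
  · left; linarith
  · right; linarith

/-- `y ^ 2 = x ^ 3 + x` -/
theorem pts1 {x y : ℚ} (h : y ^ 2 = x ^ 3 + x) : x = 0 := by
  by_contra hx
  have h1 : (y / x * (x - 1 / x)) ^ 2 = (x + 1 / x) ^ 3 - 4 * (x + 1 / x) := by
    rw [mul_pow, div_pow, h]
    field_simp
    ring
  have hsq : (y / x) ^ 2 = x + 1 / x := by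
    rw [div_pow, h]
    field_simp
  have hx2 : (x ^ 2 + 1 : ℚ) ≠ 0 := by positivity
  rcases ptsm4 h1 with h2 | h2 | h2
  · field_simp at h2
    exact hx2 (by linear_combination h2)
  · rw [h2] at hsq
    exact not_sq_two ⟨y / x, by rw [← hsq]; ring⟩
  · rw [h2] at hsq
    nlinarith [sq_nonneg (y / x)]

/-- `y ^ 2 = x ^ 3 - x` -/
theorem ptsm1 {x y : ℚ} (h : y ^ 2 = x ^ 3 - x) : x = 0 ∨ x = 1 ∨ x = -1 := by
  by_cases hx : x = 0
  · exact Or.inl hx
  right
  have h1 : (y / x * (x + 1 / x)) ^ 2 = (x - 1 / x) ^ 3 + 4 * (x - 1 / x) := by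
    rw [mul_pow, div_pow, h]
    field_simp
    ring
  rcases pts4 h1 with h2 | h2
  · have h3 : (x - 1) * (x + 1) = 0 := by
      field_simp at h2
      linear_combination h2
    rcases mul_eq_zero.1 h3 with h6 | h6
    · left; linarith
    · right; linarith
  · exfalso
    have hsq : (y / x) ^ 2 = x - 1 / x := by
      rw [div_pow, h]
      field_simp
    rw [h2] at hsq
    exact not_sq_two ⟨y / x, by rw [← hsq]; ring⟩

theorem finite_of {a : ℚ} {T : Finset ℚ} (hT : ∀ x y : ℚ, y ^ 2 = x ^ 3 + a * x → x ∈ T) :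
    Finite (sw a (0 : ℚ)).toAffine.Point := by
  classical
  let S : Set (Option (ℚ × ℚ)) := {none} ∪ some '' {z : ℚ × ℚ | z.1 ∈ T ∧ z.2 ^ 2 = z.1 ^ 3 + a * z.1}
  have hS : S.Finite := by
    refine (Set.finite_singleton _).union (Set.Finite.image _ ?_)
    have h1 : {z : ℚ × ℚ | z.1 ∈ T ∧ z.2 ^ 2 = z.1 ^ 3 + a * z.1} ⊆
        ⋃ x ∈ T, (fun y => (x, y)) '' {y : ℚ | y ^ 2 = x ^ 3 + a * x} := by
      rintro ⟨x, y⟩ ⟨hx, hy⟩
      simp only [Set.mem_iUnion]
      exact ⟨x, hx, y, hy, rfl⟩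
    refine Set.Finite.subset (Set.Finite.biUnion T.finite_toSet fun x _ => Set.Finite.image _ ?_) h1
    by_cases hne : ∃ c : ℚ, c ^ 2 = x ^ 3 + a * x
    · obtain ⟨c, hc⟩ := hne
      refine Set.Finite.subset (Set.toFinite ({c, -c} : Set ℚ)) ?_
      intro y hy
      rw [Set.mem_ofPred_eq, ← hc] at hy
      exact sq_eq_sq_iff_eq_or_eq_neg.1 hy
    · refine Set.Finite.subset Set.finite_empty ?_
      intro y hy
      exact absurd ⟨y, hy⟩ hne
  let f : (sw a (0 : ℚ)).toAffine.Point → Option (ℚ × ℚ) := fun P =>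
    match P with
    | .zero => none
    | .some x y _ => some (x, y)
  have hf : Function.Injective f := by
    intro P Q h
    match P, Q with
    | .zero, .zero => rfl
    | .zero, .some x y h' => simp [f] at h
    | .some x y h', .zero => simp [f] at h
    | .some x y h', .some x' y' h'' =>
      simp only [f, Option.some.injEq, Prod.mk.injEq] at h
      obtain ⟨rfl, rfl⟩ := h
      rfl
  have hfS : ∀ P, f P ∈ S := by
    intro P
    match P with
    | .zero => exact Or.inl rfl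
    | .some x y h =>
      right
      have h1 : y ^ 2 = x ^ 3 + a * x + 0 := sw_eqn.1 h.1
      rw [add_zero] at h1
      exact ⟨(x, y), ⟨hT x y h1, h1⟩, rfl⟩
  have : Finite S := hS
  exact Finite.of_injective (fun P => (⟨f P, hfS P⟩ : S)) (fun P Q h => hf (congrArg Subtype.val h))

/-- The four curves have only finitely many rational points. -/
theorem finite4 {a : ℚ} (ha : a = 1 ∨ a = -1 ∨ a = 4 ∨ a = -4) :
    Finite (sw a (0 : ℚ)).toAffine.Point := by
  rcases ha with rfl | rfl | rfl | rfl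
  · exact finite_of (T := {0}) fun x y h => by
      rw [Finset.mem_singleton]
      exact pts1 (y := y) (by rw [h]; ring)
  · exact finite_of (T := {0, 1, -1}) fun x y h => by
      have := ptsm1 (x := x) (y := y) (by rw [h]; ring)
      simpa using this
  · exact finite_of (T := {0, 2}) fun x y h => by
      have := pts4 (x := x) (y := y) h
      simpa using this
  · exact finite_of (T := {0, 2, -2}) fun x y h => by
      have := ptsm4 (x := x) (y := y) (by rw [h]; ring)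
      simpa using this

end Pool.Agent.K3h82.BP
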