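import Pool.Agent.K3h82.BP.Tw
import Pool.Agent.TH213.SEL.Place
import Mathlib

/-!
# Even valuations at the odd primes, by local points
-/

set_option autoImplicit false
set_option linter.all false

open Polynomial Pool.Agent.TH954 IsDedekindDomain NumberField Pool.Agent.TH213.SEL

namespace Pool.Agent.K3h82.BP

theorem exists_psi (q : ℕ) [hq : Fact q.Prime] :
    ∃ (v : HeightOneSpectrum (𝓞 ℚ)) (ψ : v.adicCompletion ℚ →+* ℚ_[q]), True := by
  have e := (Padic.adicCompletionEquiv (R := 𝓞 ℚ) ⟨q, hq.out⟩).symm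
  exact ⟨Rat.HeightOneSpectrum.primesEquiv.symm ⟨q, hq.out⟩, (e.toAlgEquiv : _ →+* _), trivial⟩

section norm

variable {q : ℕ} [hq : Fact q.Prime]

theorem nrm_add {u e : ℚ_[q]} (hu : ‖u‖ < ‖e‖) : ‖u + e‖ = ‖e‖ := by
  rw [Padic.add_eq_max_of_ne hu.ne, max_eq_right hu.le]

theorem even_nrm {D : ℚ} (hD : D ≠ 0) {c : ℚ_[q]} (h : ‖(D : ℚ_[q])‖ * ‖c‖ ^ 2 = 1) :
    Even (padicValRat q D) := by
  have hq1 : (1 : ℝ) < q := by exact_mod_cast hq.out.one_lt
  have hc : c ≠ 0 := by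
    rintro rfl
    rw [norm_zero, zero_pow two_ne_zero, mul_zero] at h
    exact zero_ne_one h
  rw [Padic.norm_eq_zpow_neg_valuation hc, Padic.norm_eq_zpow_neg_valuation (by exact_mod_cast hD),
    ← zpow_natCast, ← zpow_mul, ← zpow_add₀ (by linarith : (q : ℝ) ≠ 0)] at h
  have h1 := zpow_right_injective₀ (by linarith : (0 : ℝ) < q) hq1.ne'
    (h.trans (zpow_zero _).symm)
  rw [Padic.valuation_ratCast] at h1
  refine ⟨-c.valuation, ?_⟩
  push_cast at h1
  linarith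

end norm

section loc

attribute [-instance] DivisionRing.toRatAlgebra
attribute [local instance 1] DivisionRing.toRatAlgebra

variable {F M B : Type} [Field F] [Field M] [Field B] [Algebra ℚ F] [Algebra F M]
  [Algebra ℚ M] [IsScalarTower ℚ F M] [Algebra ℚ B] [IsAlgClosure ℚ B]
  {q : ℕ} [hq : Fact q.Prime] {s : GalSection ℚ F M B} {v : HeightOneSpectrum (𝓞 ℚ)}
  (ψ : v.adicCompletion ℚ →+* ℚ_[q])
  {pl : Plc ℚ M (AlgebraicClosure (v.adicCompletion ℚ))}

theorem even_of (hp : s.GivenBy (v.adicCompletion ℚ) pl) {z : M} (hz : ∀ g, s.s g z = z) {D : ℚ}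
    (hD : D ≠ 0) {t : M} {τ : v.adicCompletion ℚ}
    (ht : pl.val t (algebraMap _ (AlgebraicClosure (v.adicCompletion ℚ)) τ)) (hτ : ‖ψ τ‖ = 1)
    (h : algebraMap ℚ M D * z ^ 2 = t) : Even (padicValRat q D) := by
  have hDM : algebraMap ℚ M D ≠ 0 := (_root_.map_ne_zero _).2 hD
  have h1 := (Plc.val_alg (pl := pl) D⁻¹).mul ht
  have h2 : algebraMap ℚ M D⁻¹ * t = z ^ 2 := by
    rw [← h, map_inv₀, inv_mul_cancel_left₀ hDM]
  rw [h2] at h1
  obtain ⟨c, hc⟩ := Plc.val_of_mem (Plc.mem_of_pow_mem two_pos h1.mem)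
  obtain ⟨c', rfl⟩ := value_fixed hp hz hc
  have h3 := (hc.pow 2).unique h1
  have h4 : (D : v.adicCompletion ℚ) * c' ^ 2 = τ := by
    apply (algebraMap (v.adicCompletion ℚ) (AlgebraicClosure (v.adicCompletion ℚ))).injective
    rw [map_mul, map_pow, h3, map_ratCast, map_inv₀, eq_ratCast, ← mul_assoc, mul_inv_cancel₀,
      one_mul]
    have : CharZero (AlgebraicClosure (v.adicCompletion ℚ)) :=
      charZero_of_injective_algebraMap
        (algebraMap ℚ (AlgebraicClosure (v.adicCompletion ℚ))).injective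
    exact_mod_cast hD
  refine even_nrm hD (c := ψ c') ?_
  rw [← hτ, ← h4, map_mul, map_pow, map_ratCast, norm_mul, norm_pow]

theorem two_unit (hq2 : q ≠ 2) : ‖(2 : ℚ_[q])‖ = 1 := by
  have h1 : ‖((2 : ℕ) : ℚ_[q])‖ = 1 := by
    rw [Padic.norm_natCast_eq_one_iff]
    exact (Nat.coprime_primes hq.out Nat.prime_two).2 hq2
  exact_mod_cast h1

theorem one_add {u : ℚ_[q]} (hu : ‖u‖ < 1) : ‖u + 1‖ = 1 := by
  have := nrm_add (u := u) (e := 1) (by rwa [norm_one])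
  rwa [norm_one] at this

theorem sub_one {u : ℚ_[q]} (hu : ‖u‖ < 1) : ‖u - 1‖ = 1 := by
  have := nrm_add (u := u) (e := -1) (by rwa [norm_neg, norm_one])
  rwa [norm_neg, norm_one, ← sub_eq_add_neg] at this

theorem pow_lt {u : ℚ_[q]} (hu : ‖u‖ < 1) {n : ℕ} (hn : n ≠ 0) : ‖u ^ n‖ < 1 := by
  rw [norm_pow]
  exact pow_lt_one₀ (norm_nonneg _) hu hn

/-- For `|a| = 1` one of `a ^ 2 + 1`, `a ^ 2 - 1` is a unit. -/
theorem unit_or (hq2 : q ≠ 2) {a : ℚ_[q]} (ha : ‖a‖ ≤ 1) : ‖a ^ 2 + 1‖ = 1 ∨ ‖a ^ 2 - 1‖ = 1 := by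
  by_contra hcon
  push Not at hcon
  have hle : ∀ e : ℚ_[q], ‖e‖ ≤ 1 → ‖a ^ 2 + e‖ ≤ 1 := fun e he =>
    (Padic.nonarchimedean _ _).trans (max_le (by rw [norm_pow]; exact pow_le_one₀ (norm_nonneg _) ha) he)
  have h1 : ‖a ^ 2 + 1‖ < 1 := lt_of_le_of_ne (hle 1 (by rw [norm_one])) hcon.1
  have h2 : ‖a ^ 2 - 1‖ < 1 := lt_of_le_of_ne
    (by rw [sub_eq_add_neg]; exact hle (-1) (by rw [norm_neg, norm_one])) hcon.2
  have h3 : ‖(a ^ 2 + 1) + -(a ^ 2 - 1)‖ < 1 :=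
    lt_of_le_of_lt (Padic.nonarchimedean _ _) (max_lt h1 (by rwa [norm_neg]))
  have h4 : (a ^ 2 + 1) + -(a ^ 2 - 1) = (2 : ℚ_[q]) := by ring
  rw [h4, two_unit hq2] at h3
  exact lt_irrefl _ h3

variable {d D : ℚ} {X Y w : M}

section alg

variable (hX0 : X ≠ 0) (hY0 : Y ≠ 0)

include hY0 in
theorem alg_B (hdY : algebraMap ℚ M d * Y ^ 2 = X ^ 5 - X) {A Bf : M} (hAB : A * Bf = X ^ 5 - X)
    (hDw : algebraMap ℚ M D * w ^ 2 = A) :
    algebraMap ℚ M D * (Bf * w / Y) ^ 2 = algebraMap ℚ M d * Bf := by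
  rw [div_pow, mul_div_assoc', div_eq_iff (pow_ne_zero 2 hY0)]
  linear_combination (Bf ^ 2) * hDw + Bf * hAB - Bf * hdY

end alg

/-- `x` is large or infinite -/
theorem even_inf (hp : s.GivenBy (v.adicCompletion ℚ) pl) (hd : ‖(d : ℚ_[q])‖ = 1)
    (hX : ∀ g, s.s g X = X) (hY : ∀ g, s.s g Y = Y) (hw : ∀ g, s.s g w = w) (hX0 : X ≠ 0)
    (hY0 : Y ≠ 0) (hdY : algebraMap ℚ M d * Y ^ 2 = X ^ 5 - X) (hD : D ≠ 0)
    {ζ : v.adicCompletion ℚ} (hζ : ‖ψ ζ‖ < 1)
    (hXζ : pl.val X⁻¹ (algebraMap _ (AlgebraicClosure (v.adicCompletion ℚ)) ζ))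
    (h : algebraMap ℚ M D * w ^ 2 = X ^ 4 - 1 ∨ algebraMap ℚ M D * w ^ 2 = X ^ 3 - X ∨
      algebraMap ℚ M D * w ^ 2 = X ^ 3 + X) : Even (padicValRat q D) := by
  have hone := Plc.val_one (pl := pl)
  have hval4 : pl.val (1 - X⁻¹ ^ 4) (algebraMap _ (AlgebraicClosure (v.adicCompletion ℚ))
      (1 - ζ ^ 4)) := by
    rw [map_sub, map_one, map_pow]
    exact hone.sub (hXζ.pow 4)
  have hdval : pl.val (algebraMap ℚ M d) (algebraMap _ (AlgebraicClosure (v.adicCompletion ℚ))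
      (d : v.adicCompletion ℚ)) := by
    have h1 := Plc.val_alg (pl := pl) d
    rwa [map_ratCast, ← eq_ratCast (algebraMap ℚ (AlgebraicClosure (v.adicCompletion ℚ)))]
  have hvalp : pl.val (algebraMap ℚ M d * (1 + X⁻¹ ^ 2))
      (algebraMap _ (AlgebraicClosure (v.adicCompletion ℚ)) (d * (1 + ζ ^ 2))) := by
    rw [map_mul, map_add, map_one, map_pow]
    exact hdval.mul (hone.add (hXζ.pow 2))
  have hvalm : pl.val (algebraMap ℚ M d * (1 - X⁻¹ ^ 2))
      (algebraMap _ (AlgebraicClosure (v.adicCompletion ℚ)) (d * (1 - ζ ^ 2))) := by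
    rw [map_mul, map_sub, map_one, map_pow]
    exact hdval.mul (hone.sub (hXζ.pow 2))
  rcases h with h | h | h
  · refine even_of ψ hp (z := w / X ^ 2) (fun g => by rw [map_div₀, map_pow, hw, hX]) hD hval4 ?_ ?_
    · rw [map_sub, map_one, map_pow, ← norm_neg, neg_sub]
      exact sub_one (pow_lt hζ (by norm_num))
    · rw [div_pow, mul_div_assoc', h]
      field_simp
  · have h2 := alg_B hY0 hdY (A := X ^ 3 - X) (Bf := X ^ 2 + 1) (by ring) h
    refine even_of ψ hp (z := (X ^ 2 + 1) * w / Y / X) (fun g => by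
      rw [map_div₀, map_div₀, map_mul, map_add, map_pow, map_one, hw, hX, hY]) hD hvalp ?_ ?_
    · rw [map_mul, map_ratCast, norm_mul, hd, one_mul, map_add, map_one, map_pow, add_comm]
      exact one_add (pow_lt hζ (by norm_num))
    · rw [div_pow, mul_div_assoc', h2]
      field_simp
  · have h2 := alg_B hY0 hdY (A := X ^ 3 + X) (Bf := X ^ 2 - 1) (by ring) h
    refine even_of ψ hp (z := (X ^ 2 - 1) * w / Y / X) (fun g => by
      rw [map_div₀, map_div₀, map_mul, map_sub, map_pow, map_one, hw, hX, hY]) hD hvalm ?_ ?_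
    · rw [map_mul, map_ratCast, norm_mul, hd, one_mul, map_sub, map_one, map_pow, ← norm_neg,
        neg_sub]
      exact sub_one (pow_lt hζ (by norm_num))
    · rw [div_pow, mul_div_assoc', h2]
      field_simp

/-- `x` is integral -/
theorem even_fin (hp : s.GivenBy (v.adicCompletion ℚ) pl) (hq2 : q ≠ 2) (hd : ‖(d : ℚ_[q])‖ = 1)
    (hX : ∀ g, s.s g X = X) (hY : ∀ g, s.s g Y = Y) (hw : ∀ g, s.s g w = w)
    (hY0 : Y ≠ 0) (hdY : algebraMap ℚ M d * Y ^ 2 = X ^ 5 - X) (hD : D ≠ 0)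
    {ξ : v.adicCompletion ℚ} (hξ : ‖ψ ξ‖ ≤ 1)
    (hXξ : pl.val X (algebraMap _ (AlgebraicClosure (v.adicCompletion ℚ)) ξ))
    (h : algebraMap ℚ M D * w ^ 2 = X ^ 4 - 1 ∨ algebraMap ℚ M D * w ^ 2 = X ^ 3 - X ∨
      algebraMap ℚ M D * w ^ 2 = X ^ 3 + X) : Even (padicValRat q D) := by
  have hone := Plc.val_one (pl := pl)
  have hdval : pl.val (algebraMap ℚ M d) (algebraMap _ (AlgebraicClosure (v.adicCompletion ℚ))
      (d : v.adicCompletion ℚ)) := by
    have h1 := Plc.val_alg (pl := pl) d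
    rwa [map_ratCast, ← eq_ratCast (algebraMap ℚ (AlgebraicClosure (v.adicCompletion ℚ)))]
  have key : ∀ (A Bf : M) (α β : v.adicCompletion ℚ),
      pl.val A (algebraMap _ (AlgebraicClosure (v.adicCompletion ℚ)) α) →
      pl.val Bf (algebraMap _ (AlgebraicClosure (v.adicCompletion ℚ)) β) →
      (∀ g, s.s g Bf = Bf) → A * Bf = X ^ 5 - X → algebraMap ℚ M D * w ^ 2 = A →
      (‖ψ α‖ = 1 ∨ ‖ψ β‖ = 1) → Even (padicValRat q D) := by
    intro A Bf α β hA hB hBg hAB hDw hor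
    rcases hor with h1 | h1
    · exact even_of ψ hp hw hD hA h1 hDw
    · refine even_of ψ hp (z := Bf * w / Y) (fun g => by rw [map_div₀, map_mul, hBg, hw, hY]) hD
        (τ := d * β) ?_ ?_ (alg_B hY0 hdY hAB hDw)
      · rw [map_mul]
        exact hdval.mul hB
      · rw [map_mul, map_ratCast, norm_mul, hd, one_mul, h1]
  rcases h with h | h | h
  · refine key (X ^ 4 - 1) X (ξ ^ 4 - 1) ξ ?_ hXξ hX (by ring) h ?_
    · rw [map_sub, map_one, map_pow]
      exact (hXξ.pow 4).sub hone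
    · rcases hξ.lt_or_eq with h1 | h1
      · left
        rw [map_sub, map_one, map_pow]
        exact sub_one (pow_lt h1 (by norm_num))
      · right; exact h1
  · refine key (X ^ 3 - X) (X ^ 2 + 1) (ξ ^ 3 - ξ) (ξ ^ 2 + 1) ?_ ?_ (fun g => by
      rw [map_add, map_pow, map_one, hX]) (by ring) h ?_
    · rw [map_sub, map_pow]
      exact (hXξ.pow 3).sub hXξ
    · rw [map_add, map_pow, map_one]
      exact (hXξ.pow 2).add hone
    · rcases hξ.lt_or_eq with h1 | h1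
      · right
        rw [map_add, map_one, map_pow]
        exact one_add (pow_lt h1 (by norm_num))
      · rcases unit_or hq2 hξ with h2 | h2
        · right
          rw [map_add, map_one, map_pow]
          exact h2
        · left
          rw [map_sub, map_pow]
          have h3 : ψ ξ ^ 3 - ψ ξ = ψ ξ * (ψ ξ ^ 2 - 1) := by ring
          rw [h3, norm_mul, h1, h2, one_mul]
  · refine key (X ^ 3 + X) (X ^ 2 - 1) (ξ ^ 3 + ξ) (ξ ^ 2 - 1) ?_ ?_ (fun g => by
      rw [map_sub, map_pow, map_one, hX]) (by ring) h ?_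
    · rw [map_add, map_pow]
      exact (hXξ.pow 3).add hXξ
    · rw [map_sub, map_pow, map_one]
      exact (hXξ.pow 2).sub hone
    · rcases hξ.lt_or_eq with h1 | h1
      · right
        rw [map_sub, map_one, map_pow]
        exact sub_one (pow_lt h1 (by norm_num))
      · rcases unit_or hq2 hξ with h2 | h2
        · left
          rw [map_add, map_pow]
          have h3 : ψ ξ ^ 3 + ψ ξ = ψ ξ * (ψ ξ ^ 2 + 1) := by ring
          rw [h3, norm_mul, h1, h2, one_mul]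
        · right
          rw [map_sub, map_one, map_pow]
          exact h2

include ψ in
/-- **The valuation of `D` at `q` is even.** -/
theorem even_loc (hp : s.GivenBy (v.adicCompletion ℚ) pl) (hq2 : q ≠ 2) (hd : ‖(d : ℚ_[q])‖ = 1)
    (hX : ∀ g, s.s g X = X) (hY : ∀ g, s.s g Y = Y) (hw : ∀ g, s.s g w = w) (hX0 : X ≠ 0)
    (hY0 : Y ≠ 0) (hdY : algebraMap ℚ M d * Y ^ 2 = X ^ 5 - X) (hD : D ≠ 0)
    (h : algebraMap ℚ M D * w ^ 2 = X ^ 4 - 1 ∨ algebraMap ℚ M D * w ^ 2 = X ^ 3 - X ∨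
      algebraMap ℚ M D * w ^ 2 = X ^ 3 + X) : Even (padicValRat q D) := by
  by_cases hXW : X ∈ pl.W
  · obtain ⟨c, hc⟩ := Plc.val_of_mem hXW
    obtain ⟨ξ, rfl⟩ := value_fixed hp hX hc
    rcases le_or_gt ‖ψ ξ‖ 1 with h1 | h1
    · exact even_fin ψ hp hq2 hd hX hY hw hY0 hdY hD h1 hc h
    · have hξ0 : ξ ≠ 0 := by
        rintro rfl
        rw [map_zero, norm_zero] at h1
        linarith
      refine even_inf ψ hp hd hX hY hw hX0 hY0 hdY hD (ζ := ξ⁻¹) ?_ ?_ h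
      · rw [map_inv₀, norm_inv]
        exact inv_lt_one_of_one_lt₀ h1
      · rw [map_inv₀]
        exact hc.inv ((_root_.map_ne_zero _).2 hξ0)
  · refine even_inf ψ hp hd hX hY hw hX0 hY0 hdY hD (ζ := 0) ?_ ?_ h
    · rw [map_zero, norm_zero]
      exact one_pos
    · rw [map_zero]
      exact Plc.val_inv_of_notMem hXW

end loc

end Pool.Agent.K3h82.BP
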