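import Pool.Agent.K3h82.BP.Def
import Pool.Agent.K3h82.BP.Loc
import Pool.Agent.K3h82.BP.Ell
import Pool.Agent.K3h82.BP.Cls

/-!
# The points of the elliptic curves
-/

set_option autoImplicit false
set_option linter.all false

open Polynomial Pool.Agent.TH954 IsDedekindDomain NumberField Pool.Agent.TH213.SEL
  Pool.Agent.TH942

namespace Pool.Agent.K3h82.BP

section pos

variable {L : Type} [Field L] [CharZero L] {O : ValuationSubring L}

theorem pos_lin (hO : ∀ e : ℚ, (e : L) ∈ O) {x : L} {k : ℚ} (hk : k ≠ 0) :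
    ((k : L) * x ∉ O → x ∉ O) ∧ ∀ e : ℚ, ((k : L) * x - ((k * e : ℚ) : L))⁻¹ ∉ O →
      (x - (e : L))⁻¹ ∉ O := by
  constructor
  · intro h h1
    exact h (mul_mem (hO k) h1)
  · intro e h h1
    apply h
    have h2 : ((k : L) * x - ((k * e : ℚ) : L))⁻¹ = ((k⁻¹ : ℚ) : L) * (x - (e : L))⁻¹ := by
      push_cast
      rw [← mul_sub, mul_inv]
    rw [h2]
    exact mul_mem (hO _) h1

theorem pos_mob (hO : ∀ e : ℚ, (e : L) ∈ O) {x : L} (hx1 : x - 1 ≠ 0) (hx2 : x + 1 ≠ 0)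
    (hx0 : x ≠ 0) {k : ℚ} (hk : k ≠ 0) :
    ((k : L) * ((x + 1) / (x - 1)) ∉ O → (x - 1)⁻¹ ∉ O) ∧
    (((k : L) * ((x + 1) / (x - 1)) - k)⁻¹ ∉ O → x ∉ O) ∧
    (((k : L) * ((x + 1) / (x - 1)))⁻¹ ∉ O → (x + 1)⁻¹ ∉ O) ∧
    (((k : L) * ((x + 1) / (x - 1)) + k)⁻¹ ∉ O → x⁻¹ ∉ O) := by
  have hkL : (k : L) ≠ 0 := by exact_mod_cast hk
  refine ⟨fun h h1 => h ?_, fun h h1 => h ?_, fun h h1 => h ?_, fun h h1 => h ?_⟩
  · have h2 : (k : L) * ((x + 1) / (x - 1)) = (k : L) + ((2 * k : ℚ) : L) * (x - 1)⁻¹ := by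
      push_cast
      field_simp
      ring
    rw [h2]
    exact add_mem (hO _) (mul_mem (hO _) h1)
  · have h2 : ((k : L) * ((x + 1) / (x - 1)) - k)⁻¹ =
        (((2 * k)⁻¹ : ℚ) : L) * (x + ((-1 : ℚ) : L)) := by
      have h3 : (k : L) * ((x + 1) / (x - 1)) - k = 2 * k / (x - 1) := by
        field_simp
        ring
      rw [h3, inv_div]
      push_cast
      field_simp
      ring
    rw [h2]
    exact mul_mem (hO _) (add_mem h1 (hO _))
  · have h2 : ((k : L) * ((x + 1) / (x - 1)))⁻¹ =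
        ((k⁻¹ : ℚ) : L) * (((1 : ℚ) : L) + ((-2 : ℚ) : L) * (x + 1)⁻¹) := by
      push_cast
      field_simp
      ring
    rw [h2]
    exact mul_mem (hO _) (add_mem (hO _) (mul_mem (hO _) h1))
  · have h2 : ((k : L) * ((x + 1) / (x - 1)) + k)⁻¹ =
        (((2 * k)⁻¹ : ℚ) : L) * (((1 : ℚ) : L) + ((-1 : ℚ) : L) * x⁻¹) := by
      have h3 : (k : L) * ((x + 1) / (x - 1)) + k = 2 * k * x / (x - 1) := by
        field_simp
        ring
      rw [h3, inv_div]
      push_cast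
      field_simp
      ring
    rw [h2]
    exact mul_mem (hO _) (add_mem (hO _) (mul_mem (hO _) h1))

end pos

/-- the coordinate on the elliptic curve: `k x` or `k (x + 1) / (x - 1)` -/
noncomputable def crdE {L : Type} [Field L] (b : Bool) (k : ℚ) (x : L) : L :=
  if b then (k : L) * x else (k : L) * ((x + 1) / (x - 1))

/-- the position of the point -/
theorem pos_crdE {L : Type} [Field L] [CharZero L] {O : ValuationSubring L}
    (hO : ∀ e : ℚ, (e : L) ∈ O) {x : L} (hx : ∀ e : ℚ, x ≠ e) (b : Bool) {k a : ℚ}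
    (hk : (b = true ∧ ((a = -1 ∧ (k = 1 ∨ k = -1)) ∨ (a = -4 ∧ (k = 2 ∨ k = -2)) ∨
      (a = 1 ∧ (k = 1 ∨ k = -1)) ∨ (a = 4 ∧ (k = 2 ∨ k = -2)))) ∨
      (b = false ∧ ((a = 4 ∧ (k = 2 ∨ k = -2)) ∨ (a = 1 ∧ (k = 1 ∨ k = -1))))) :
    (crdE b k x ∉ O → Pos O x) ∧ ∀ a' b' : ℚ, b' ^ 2 = a' ^ 3 + a * a' →
      (crdE b k x - (a' : L))⁻¹ ∉ O → Pos O x := by
  have hx0 : x ≠ 0 := by exact_mod_cast hx 0
  have hx1 : x - 1 ≠ 0 := sub_ne_zero.2 (by exact_mod_cast hx 1)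
  have hx2 : x + 1 ≠ 0 := by
    intro h
    apply hx (-1)
    push_cast
    linear_combination h
  have hk0 : k ≠ 0 := by
    rcases hk with ⟨-, h⟩ | ⟨-, h⟩
    · rcases h with ⟨-, rfl | rfl⟩ | ⟨-, rfl | rfl⟩ | ⟨-, rfl | rfl⟩ | ⟨-, rfl | rfl⟩ <;> norm_num
    · rcases h with ⟨-, rfl | rfl⟩ | ⟨-, rfl | rfl⟩ <;> norm_num
  have hpts : ∀ a' b' : ℚ, b' ^ 2 = a' ^ 3 + a * a' →
      (a = -1 → a' = 0 ∨ a' = 1 ∨ a' = -1) ∧ (a = -4 → a' = 0 ∨ a' = 2 ∨ a' = -2) ∧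
      (a = 1 → a' = 0) ∧ (a = 4 → a' = 0 ∨ a' = 2) := by
    intro a' b' h
    refine ⟨?_, ?_, ?_, ?_⟩
    · rintro rfl
      exact ptsm1 (y := b') (by rw [h]; ring)
    · rintro rfl
      exact ptsm4 (y := b') (by rw [h]; ring)
    · rintro rfl
      exact pts1 (y := b') (by rw [h]; ring)
    · rintro rfl
      exact pts4 (y := b') h
  rcases hk with ⟨rfl, hk⟩ | ⟨rfl, hk⟩
  · obtain ⟨h1, h2⟩ := pos_lin hO (x := x) hk0
    have e : crdE true k x = (k : L) * x := if_pos rfl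
    rw [e]
    refine ⟨fun h => Or.inl (h1 h), fun a' b' hab h => ?_⟩
    have hor : a' = k * 0 ∨ a' = k * 1 ∨ a' = k * (-1) := by
      obtain ⟨p1, p2, p3, p4⟩ := hpts a' b' hab
      rcases hk with ⟨ha, rfl | rfl⟩ | ⟨ha, rfl | rfl⟩ | ⟨ha, rfl | rfl⟩ | ⟨ha, rfl | rfl⟩
      · rcases p1 ha with rfl | rfl | rfl <;> norm_num
      · rcases p1 ha with rfl | rfl | rfl <;> norm_num
      · rcases p2 ha with rfl | rfl | rfl <;> norm_num
      · rcases p2 ha with rfl | rfl | rfl <;> norm_num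
      · rw [p3 ha]; norm_num
      · rw [p3 ha]; norm_num
      · rcases p4 ha with rfl | rfl <;> norm_num
      · rcases p4 ha with rfl | rfl <;> norm_num
    rcases hor with h3 | h3 | h3
    · rw [h3] at h
      have h4 := h2 _ h
      rw [Rat.cast_zero, sub_zero] at h4
      exact Or.inr (Or.inl h4)
    · rw [h3] at h
      have h4 := h2 _ h
      rw [Rat.cast_one] at h4
      exact Or.inr (Or.inr (Or.inl h4))
    · rw [h3] at h
      have h4 := h2 _ h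
      rw [Rat.cast_neg, Rat.cast_one, sub_neg_eq_add] at h4
      exact Or.inr (Or.inr (Or.inr h4))
  · obtain ⟨h1, h2, h3, h4⟩ := pos_mob hO hx1 hx2 hx0 hk0
    have e : crdE false k x = (k : L) * ((x + 1) / (x - 1)) := if_neg (by decide)
    rw [e]
    refine ⟨fun h => Or.inr (Or.inr (Or.inl (h1 h))), fun a' b' hab h => ?_⟩
    have hor : a' = 0 ∨ a' = k ∨ a' = -k := by
      obtain ⟨p1, p2, p3, p4⟩ := hpts a' b' hab
      rcases hk with ⟨ha, rfl | rfl⟩ | ⟨ha, rfl | rfl⟩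
      · rcases p4 ha with rfl | rfl <;> norm_num
      · rcases p4 ha with rfl | rfl <;> norm_num
      · rw [p3 ha]; norm_num
      · rw [p3 ha]; norm_num
    rcases hor with h5 | h5 | h5
    · rw [h5, Rat.cast_zero, sub_zero] at h
      exact Or.inr (Or.inr (Or.inr (h3 h)))
    · rw [h5] at h
      exact Or.inl (h2 h)
    · rw [h5, Rat.cast_neg, sub_neg_eq_add] at h
      exact Or.inr (Or.inl (h4 h))

/-- the Weierstrass equation -/
theorem exists_ell {M : Type} [Field M] [CharZero M] {X w : M} (hX1 : X - 1 ≠ 0) {c : ℚ}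
    (hc : c = 1 ∨ c = -1 ∨ c = 2 ∨ c = -2)
    (h : (c : M) * w ^ 2 = X ^ 4 - 1 ∨ (c : M) * w ^ 2 = X ^ 3 - X ∨
      (c : M) * w ^ 2 = X ^ 3 + X) :
    ∃ (b : Bool) (k a : ℚ) (e : ℚ) (n : ℕ),
      ((b = true ∧ ((a = -1 ∧ (k = 1 ∨ k = -1)) ∨ (a = -4 ∧ (k = 2 ∨ k = -2)) ∨
      (a = 1 ∧ (k = 1 ∨ k = -1)) ∨ (a = 4 ∧ (k = 2 ∨ k = -2)))) ∨
      (b = false ∧ ((a = 4 ∧ (k = 2 ∨ k = -2)) ∨ (a = 1 ∧ (k = 1 ∨ k = -1))))) ∧
      ((e : M) * w * (X - 1)⁻¹ ^ n) ^ 2 = crdE b k X ^ 3 + (a : M) * crdE b k X := by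
  have et : ∀ k : ℚ, crdE true k X = (k : M) * X := fun k => if_pos rfl
  have ef : ∀ k : ℚ, crdE false k X = (k : M) * ((X + 1) / (X - 1)) := fun k => if_neg (by decide)
  rcases h with h | h | h
  · have hu : ((X + 1) / (X - 1)) ^ 3 + (X + 1) / (X - 1) = 2 * (c : M) * w ^ 2 * (X - 1)⁻¹ ^ 4 := by
      have h1 : 2 * (c : M) * w ^ 2 * (X - 1)⁻¹ ^ 4 = 2 * ((c : M) * w ^ 2) * (X - 1)⁻¹ ^ 4 := by
        ring
      rw [h1, h]
      field_simp
      ring
    rcases hc with rfl | rfl | rfl | rfl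
    · refine ⟨false, 2, 4, 4, 2, by norm_num, ?_⟩
      rw [ef]
      push_cast at hu ⊢
      linear_combination (-8) * hu
    · refine ⟨false, -2, 4, 4, 2, by norm_num, ?_⟩
      rw [ef]
      push_cast at hu ⊢
      linear_combination 8 * hu
    · refine ⟨false, 1, 1, 2, 2, by norm_num, ?_⟩
      rw [ef]
      push_cast at hu ⊢
      linear_combination (-1) * hu
    · refine ⟨false, -1, 1, 2, 2, by norm_num, ?_⟩
      rw [ef]
      push_cast at hu ⊢
      linear_combination hu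
  · rcases hc with rfl | rfl | rfl | rfl
    · refine ⟨true, 1, -1, 1, 0, by norm_num, ?_⟩
      rw [et]
      push_cast at h ⊢
      linear_combination h
    · refine ⟨true, -1, -1, 1, 0, by norm_num, ?_⟩
      rw [et]
      push_cast at h ⊢
      linear_combination (-1) * h
    · refine ⟨true, 2, -4, 4, 0, by norm_num, ?_⟩
      rw [et]
      push_cast at h ⊢
      linear_combination 8 * h
    · refine ⟨true, -2, -4, 4, 0, by norm_num, ?_⟩
      rw [et]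
      push_cast at h ⊢
      linear_combination (-8) * h
  · rcases hc with rfl | rfl | rfl | rfl
    · refine ⟨true, 1, 1, 1, 0, by norm_num, ?_⟩
      rw [et]
      push_cast at h ⊢
      linear_combination h
    · refine ⟨true, -1, 1, 1, 0, by norm_num, ?_⟩
      rw [et]
      push_cast at h ⊢
      linear_combination (-1) * h
    · refine ⟨true, 2, 4, 4, 0, by norm_num, ?_⟩
      rw [et]
      push_cast at h ⊢
      linear_combination 8 * h
    · refine ⟨true, -2, 4, 4, 0, by norm_num, ?_⟩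
      rw [et]
      push_cast at h ⊢
      linear_combination (-8) * h

end Pool.Agent.K3h82.BP
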