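import Pool.Agent.K3h82.BP.Pos

/-!
# The position of the point, uniformly
-/

set_option autoImplicit false
set_option linter.all false

open Polynomial Pool.Agent.TH954 IsDedekindDomain NumberField Pool.Agent.TH213.SEL
  Pool.Agent.TH942

namespace Pool.Agent.K3h82.BP

/-- `x` has the value `∞`, `0`, `1`, `-1` for `i = 0, 1, 2, 3` -/
def PosI {L : Type} [Field L] (i : Fin 4) (O : ValuationSubring L) (x : L) : Prop :=
  ![x, x⁻¹, (x - 1)⁻¹, (x + 1)⁻¹] i ∉ O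

/-- the position of the point, uniform in the valuation ring -/
theorem pos_crdE_u {L : Type} [Field L] [CharZero L] {x : L} (hx : ∀ e : ℚ, x ≠ e) (b : Bool)
    {k a : ℚ}
    (hk : (b = true ∧ ((a = -1 ∧ (k = 1 ∨ k = -1)) ∨ (a = -4 ∧ (k = 2 ∨ k = -2)) ∨
      (a = 1 ∧ (k = 1 ∨ k = -1)) ∨ (a = 4 ∧ (k = 2 ∨ k = -2)))) ∨
      (b = false ∧ ((a = 4 ∧ (k = 2 ∨ k = -2)) ∨ (a = 1 ∧ (k = 1 ∨ k = -1))))) :
    (∃ i : Fin 4, ∀ O : ValuationSubring L, (∀ e : ℚ, (e : L) ∈ O) → crdE b k x ∉ O →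
      PosI i O x) ∧ ∀ a' b' : ℚ, b' ^ 2 = a' ^ 3 + a * a' →
      ∃ i : Fin 4, ∀ O : ValuationSubring L, (∀ e : ℚ, (e : L) ∈ O) →
        (crdE b k x - (a' : L))⁻¹ ∉ O → PosI i O x := by
  have hx0 : x ≠ 0 := by exact_mod_cast hx 0
  have hx1 : x - 1 ≠ 0 := sub_ne_zero.2 (by exact_mod_cast hx 1)
  have hx2 : x + 1 ≠ 0 := by
    intro h
    apply hx (-1)
    push_cast
    linear_combination h
  have hk0 : k ≠ 0 := by
    rcases hk with ⟨-, h⟩ | ⟨-, h⟩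
    · rcases h with ⟨-, rfl | rfl⟩ | ⟨-, rfl | rfl⟩ | ⟨-, rfl | rfl⟩ | ⟨-, rfl | rfl⟩ <;> norm_num
    · rcases h with ⟨-, rfl | rfl⟩ | ⟨-, rfl | rfl⟩ <;> norm_num
  have hpts : ∀ a' b' : ℚ, b' ^ 2 = a' ^ 3 + a * a' →
      (a = -1 → a' = 0 ∨ a' = 1 ∨ a' = -1) ∧ (a = -4 → a' = 0 ∨ a' = 2 ∨ a' = -2) ∧
      (a = 1 → a' = 0) ∧ (a = 4 → a' = 0 ∨ a' = 2) := by
    intro a' b' h
    refine ⟨?_, ?_, ?_, ?_⟩
    · rintro rfl
      exact ptsm1 (y := b') (by rw [h]; ring)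
    · rintro rfl
      exact ptsm4 (y := b') (by rw [h]; ring)
    · rintro rfl
      exact pts1 (y := b') (by rw [h]; ring)
    · rintro rfl
      exact pts4 (y := b') h
  rcases hk with ⟨rfl, hk⟩ | ⟨rfl, hk⟩
  · have e : crdE true k x = (k : L) * x := if_pos rfl
    rw [e]
    refine ⟨⟨0, fun O hO h => (pos_lin hO hk0).1 h⟩, fun a' b' hab => ?_⟩
    have hor : a' = k * 0 ∨ a' = k * 1 ∨ a' = k * (-1) := by
      obtain ⟨p1, p2, p3, p4⟩ := hpts a' b' hab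
      rcases hk with ⟨ha, rfl | rfl⟩ | ⟨ha, rfl | rfl⟩ | ⟨ha, rfl | rfl⟩ | ⟨ha, rfl | rfl⟩
      · rcases p1 ha with rfl | rfl | rfl <;> norm_num
      · rcases p1 ha with rfl | rfl | rfl <;> norm_num
      · rcases p2 ha with rfl | rfl | rfl <;> norm_num
      · rcases p2 ha with rfl | rfl | rfl <;> norm_num
      · rw [p3 ha]; norm_num
      · rw [p3 ha]; norm_num
      · rcases p4 ha with rfl | rfl <;> norm_num
      · rcases p4 ha with rfl | rfl <;> norm_num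
    rcases hor with h3 | h3 | h3
    · refine ⟨1, fun O hO h => ?_⟩
      rw [h3] at h
      have h4 := (pos_lin hO hk0).2 _ h
      rw [Rat.cast_zero, sub_zero] at h4
      exact h4
    · refine ⟨2, fun O hO h => ?_⟩
      rw [h3] at h
      have h4 := (pos_lin hO hk0).2 _ h
      rw [Rat.cast_one] at h4
      exact h4
    · refine ⟨3, fun O hO h => ?_⟩
      rw [h3] at h
      have h4 := (pos_lin hO hk0).2 _ h
      rw [Rat.cast_neg, Rat.cast_one, sub_neg_eq_add] at h4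
      exact h4
  · have e : crdE false k x = (k : L) * ((x + 1) / (x - 1)) := if_neg (by decide)
    rw [e]
    refine ⟨⟨2, fun O hO h => (pos_mob hO hx1 hx2 hx0 hk0).1 h⟩, fun a' b' hab => ?_⟩
    have hor : a' = 0 ∨ a' = k ∨ a' = -k := by
      obtain ⟨p1, p2, p3, p4⟩ := hpts a' b' hab
      rcases hk with ⟨ha, rfl | rfl⟩ | ⟨ha, rfl | rfl⟩
      · rcases p4 ha with rfl | rfl <;> norm_num
      · rcases p4 ha with rfl | rfl <;> norm_num
      · rw [p3 ha]; norm_num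
      · rw [p3 ha]; norm_num
    rcases hor with h5 | h5 | h5
    · refine ⟨3, fun O hO h => ?_⟩
      rw [h5, Rat.cast_zero, sub_zero] at h
      exact (pos_mob hO hx1 hx2 hx0 hk0).2.2.1 h
    · refine ⟨0, fun O hO h => ?_⟩
      rw [h5] at h
      exact (pos_mob hO hx1 hx2 hx0 hk0).2.1 h
    · refine ⟨1, fun O hO h => ?_⟩
      rw [h5, Rat.cast_neg, sub_neg_eq_add] at h
      exact (pos_mob hO hx1 hx2 hx0 hk0).2.2.2 h

end Pool.Agent.K3h82.BP
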