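import Pool.Agent.K3h82.BP.Tw
import Pool.Agent.TH213.SEL.Et

/-!
# The square roots of the genus one quotients are unramified
-/

set_option autoImplicit false
set_option linter.all false

open Polynomial Pool.Agent.TH954 Pool.Agent.W620.SC

namespace Pool.Agent.K3h82.BP

section gen

variable {k F Ω : Type} [Field k] [Field F] [Field Ω] [Algebra k F]
  [Algebra F Ω] [Algebra k Ω] [IsScalarTower k F Ω]

/-- a square root of an element which is, over `U`, up to units a square is unramified -/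
theorem sqrt_unrV {U : Set (ValuationSubring F)} (hU : ∀ O ∈ U, ∀ c : k, algebraMap k F c ∈ O)
    {f : F} (hf : f ≠ 0) {w : Ω} (hw : w ^ 2 = algebraMap F Ω f)
    (h : ∀ W : ValuationSubring Ω, W.comap (algebraMap F Ω) ∈ U →
      ∃ t : Ω, t ∈ unramified F Ω U ∧ t ≠ 0 ∧ algebraMap F Ω f / t ^ 2 ∈ W ∧
        t ^ 2 / algebraMap F Ω f ∈ W) : w ∈ unramified F Ω U := by
  rw [mem_unramified]
  intro W hW σ hσ
  obtain ⟨t, ht, ht0, h1, h2⟩ := h W hW
  have hw0 : w ≠ 0 := by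
    rintro rfl
    rw [zero_pow two_ne_zero] at hw
    exact hf ((map_eq_zero (algebraMap F Ω)).1 hw.symm)
  refine inertia_root (k := k) (fun c => ?_) hσ two_pos (t := t) ?_ (mem_unramified.1 ht W hW σ hσ)
    ht0 hw0 ?_ ?_
  · have := hU _ hW c
    rw [ValuationSubring.mem_comap, ← IsScalarTower.algebraMap_apply] at this
    exact this
  · rw [hw, σ.commutes]
  · rw [hw]; exact h1
  · rw [hw]; exact h2

/-- one of two coprime elements is a unit -/
theorem unit_orV {L : Type} [Field L] {W : ValuationSubring L} {a b u v : L} (ha : a ∈ W)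
    (hb : b ∈ W) (hu : u ∈ W) (hv : v ∈ W) (h : u * a + v * b = 1) : a⁻¹ ∈ W ∨ b⁻¹ ∈ W := by
  by_contra hno
  rw [not_or] at hno
  have h1 : ∀ c : L, c ∈ W → c⁻¹ ∉ W → ∀ u : L, u ∈ W → W.valuation (u * c) < 1 := by
    intro c hc hc' u hu
    have h2 : W.valuation c < 1 := by
      by_contra h3
      rw [not_lt] at h3
      apply hc'
      rw [← ValuationSubring.valuation_le_one_iff, map_inv₀]
      exact inv_le_one_of_one_le₀ h3
    have h3 : W.valuation u ≤ 1 := (ValuationSubring.valuation_le_one_iff _ _).2 hu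
    rw [map_mul]
    calc W.valuation u * W.valuation c ≤ 1 * W.valuation c := by gcongr
      _ < 1 := by rwa [one_mul]
  have h2 := W.valuation.map_add (u * a) (v * b)
  rw [h, map_one] at h2
  exact absurd (lt_of_le_of_lt h2 (max_lt (h1 a ha hno.1 u hu) (h1 b hb hno.2 v hv)))
    (lt_irrefl _)

/-- `1 + e` is a unit, if `e` is not one -/
theorem unit_one_addV {L : Type} [Field L] {W : ValuationSubring L} {a : L} (ha : a ∉ W) {e : L}
    (he : e ∈ W) : (1 + e * a⁻¹) ∈ W ∧ (1 + e * a⁻¹)⁻¹ ∈ W := by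
  have hai : a⁻¹ ∈ W := (W.mem_or_inv_mem a).resolve_left ha
  have ha0 : a ≠ 0 := by
    rintro rfl
    exact ha W.zero_mem
  have h1 : 1 + e * a⁻¹ ∈ W := add_mem W.one_mem (mul_mem he hai)
  refine ⟨h1, ?_⟩
  rcases unit_orV (a := 1 + e * a⁻¹) (b := a⁻¹) (u := 1) (v := -e) h1 hai W.one_mem
    (neg_mem he) (by ring) with h | h
  · exact h
  · rw [inv_inv] at h
    exact absurd h ha

end gen

attribute [-instance] DivisionRing.toRatAlgebra
attribute [local instance 1] DivisionRing.toRatAlgebra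

variable {F Ω : Type} [Field F] [Field Ω] [Algebra ℚ F]
  [Algebra F Ω] [Algebra ℚ Ω] [IsScalarTower ℚ F Ω]

/-- the square roots of the three functions are unramified -/
theorem gA_unr {U : Set (ValuationSubring F)} (hU : ∀ O ∈ U, ∀ c : ℚ, algebraMap ℚ F c ∈ O)
    {x : F} (hx : Transcendental ℚ x) {d : ℤ} (hd : d ≠ 0) {y : Ω} (hy : y ∈ unramified F Ω U)
    (hxy : (d : Ω) * y ^ 2 = algebraMap F Ω (x ^ 5 - x)) (j : Fin 3) {w : Ω}
    (hw : w ^ 2 = algebraMap F Ω (aeval x (gA j))) : w ∈ unramified F Ω U := by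
  haveI hcF : CharZero F := charZero_of_injective_algebraMap (algebraMap ℚ F).injective
  haveI hcΩ : CharZero Ω :=
    charZero_of_injective_algebraMap (algebraMap F Ω).injective
  have hne : ∀ q : ℚ[X], q ≠ 0 → aeval x q ≠ 0 := by
    intro q hq h0
    exact hx ⟨q, hq, h0⟩
  have e0 : aeval x (gA 0) = x ^ 4 - 1 := by simp [gA]
  have e1 : aeval x (gA 1) = x ^ 3 - x := by simp [gA]
  have e2 : aeval x (gA 2) = x ^ 3 + x := by simp [gA]
  have hx0 : x ≠ 0 := by
    rintro rfl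
    exact hx isAlgebraic_zero
  have hf0 : x ^ 4 - 1 ≠ 0 := by
    have h1 := hne (X ^ 4 - C 1) (X_pow_sub_C_ne_zero (by norm_num) 1)
    simpa using h1
  have hfm : x ^ 2 - 1 ≠ 0 := by
    intro h
    apply hf0
    linear_combination (x ^ 2 + 1) * h
  have hfp : x ^ 2 + 1 ≠ 0 := by
    intro h
    apply hf0
    linear_combination (x ^ 2 - 1) * h
  have hdΩ : (d : Ω) ≠ 0 := by exact_mod_cast hd
  set X : Ω := algebraMap F Ω x with hX
  have hX0 : X ≠ 0 := (_root_.map_ne_zero _).2 hx0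
  have hXm : X ^ 2 - 1 ≠ 0 := by
    have := (_root_.map_ne_zero (algebraMap F Ω)).2 hfm
    rwa [map_sub, map_pow, map_one] at this
  have hXp : X ^ 2 + 1 ≠ 0 := by
    have := (_root_.map_ne_zero (algebraMap F Ω)).2 hfp
    rwa [map_add, map_pow, map_one] at this
  have hXf : X ^ 4 - 1 ≠ 0 := by
    have := (_root_.map_ne_zero (algebraMap F Ω)).2 hf0
    rwa [map_sub, map_pow, map_one] at this
  have hdy : (d : Ω) * y ^ 2 = X * (X ^ 4 - 1) := by
    rw [hxy, map_sub, map_pow]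
    ring
  have hy0 : y ≠ 0 := by
    rintro rfl
    rw [zero_pow two_ne_zero, mul_zero] at hdy
    exact mul_ne_zero hX0 hXf hdy.symm
  have hXU : X ∈ unramified F Ω U := IntermediateField.algebraMap_mem _ x
  have hQ : ∀ W : ValuationSubring Ω, W.comap (algebraMap F Ω) ∈ U → ∀ q : ℚ, (q : Ω) ∈ W := by
    intro W hW q
    have := hU _ hW q
    rw [ValuationSubring.mem_comap, ← IsScalarTower.algebraMap_apply] at this
    rwa [eq_ratCast] at this
  -- the general step: `A B = d y²`, `A = X ^ m (1 + e / X²)` …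
  have hf : aeval x (gA j) ≠ 0 := by
    fin_cases j
    · change aeval x (gA 0) ≠ 0
      rw [e0]; exact hf0
    · change aeval x (gA 1) ≠ 0
      rw [e1]
      intro h
      exact mul_ne_zero hx0 hfm (by linear_combination h)
    · change aeval x (gA 2) ≠ 0
      rw [e2]
      intro h
      exact mul_ne_zero hx0 hfp (by linear_combination h)
  refine sqrt_unrV (k := ℚ) hU hf hw fun W hW => ?_
  have hQW := hQ W hW
  have hdW : (d : Ω) ∈ W := by exact_mod_cast hQW d
  have hdW' : (d : Ω)⁻¹ ∈ W := by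
    have := hQW ((d : ℚ)⁻¹)
    rwa [Rat.cast_inv, Rat.cast_intCast] at this
  -- a product `A B = d y²` with `B` a unit or `A` a unit
  have key : ∀ A B : Ω, A ≠ 0 → B ≠ 0 → A * B = (d : Ω) * y ^ 2 → A ∈ W → B ∈ W →
      (A⁻¹ ∈ W ∨ B⁻¹ ∈ W) → ∃ t : Ω, t ∈ unramified F Ω U ∧ t ≠ 0 ∧ A / t ^ 2 ∈ W ∧
        t ^ 2 / A ∈ W := by
    intro A B hA hB hAB hAW hBW h
    rcases h with h | h
    · exact ⟨1, one_mem _, one_ne_zero, by rwa [one_pow, div_one], by rwa [one_pow, one_div]⟩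
    · refine ⟨y, hy, hy0, ?_, ?_⟩
      · have h1 : A / y ^ 2 = (d : Ω) * B⁻¹ := by
          rw [div_eq_iff (pow_ne_zero 2 hy0), mul_right_comm, ← hAB]
          field_simp
        rw [h1]
        exact mul_mem hdW h
      · have h1 : y ^ 2 / A = (d : Ω)⁻¹ * B := by
          rw [div_eq_iff hA]
          have : (d : Ω)⁻¹ * B * A = (d : Ω)⁻¹ * (A * B) := by ring
          rw [this, hAB]
          field_simp
        rw [h1]
        exact mul_mem hdW' hBW
  -- at infinity: `A X² = (1 + e / X²) …`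
  have keyI : ∀ B E : Ω, B ≠ 0 → E ∈ W → E⁻¹ ∈ W → B = X ^ 2 * E → ∀ A : Ω, A ≠ 0 →
      A * B = (d : Ω) * y ^ 2 → ∃ t : Ω, t ∈ unramified F Ω U ∧ t ≠ 0 ∧ A / t ^ 2 ∈ W ∧
        t ^ 2 / A ∈ W := by
    intro B E hB hE hE' hBE A hA hAB
    have hE0 : E ≠ 0 := by
      rintro rfl
      exact hB (by rw [hBE, mul_zero])
    refine ⟨y * X⁻¹, mul_mem hy (inv_mem hXU), mul_ne_zero hy0 (inv_ne_zero hX0), ?_, ?_⟩
    · have h1 : A / (y * X⁻¹) ^ 2 = (d : Ω) * E⁻¹ := by
        rw [div_eq_iff (pow_ne_zero 2 (mul_ne_zero hy0 (inv_ne_zero hX0)))]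
        have h2 : A = (d : Ω) * y ^ 2 * B⁻¹ := by
          rw [← hAB, mul_assoc, mul_inv_cancel₀ hB, mul_one]
        rw [h2, hBE]
        field_simp
      rw [h1]
      exact mul_mem hdW hE'
    · have h1 : (y * X⁻¹) ^ 2 / A = (d : Ω)⁻¹ * E := by
        rw [div_eq_iff hA]
        have h2 : A * (X ^ 2 * E) = (d : Ω) * y ^ 2 := by rw [← hBE, hAB]
        have h3 : (d : Ω)⁻¹ * E * A = (d : Ω)⁻¹ * (A * (X ^ 2 * E)) * X⁻¹ ^ 2 := by
          field_simp
        rw [h3, h2]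
        field_simp
      rw [h1]
      exact mul_mem hdW' hE
  by_cases hXW : X ∈ W
  · fin_cases j
    · change ∃ t : Ω, _ ∧ _ ∧ algebraMap F Ω (aeval x (gA 0)) / t ^ 2 ∈ W ∧
        t ^ 2 / algebraMap F Ω (aeval x (gA 0)) ∈ W
      rw [e0, map_sub, map_pow, map_one]
      refine key (X ^ 4 - 1) X hXf hX0 (by rw [hdy]; ring)
        (sub_mem (pow_mem hXW 4) W.one_mem) hXW ?_
      exact unit_orV (u := -1) (v := X ^ 3) (sub_mem (pow_mem hXW 4) W.one_mem) hXW
        (neg_mem W.one_mem) (pow_mem hXW 3) (by ring)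
    · change ∃ t : Ω, _ ∧ _ ∧ algebraMap F Ω (aeval x (gA 1)) / t ^ 2 ∈ W ∧
        t ^ 2 / algebraMap F Ω (aeval x (gA 1)) ∈ W
      rw [e1, map_sub, map_pow]
      have hA : X ^ 3 - X ≠ 0 := by
        intro h
        exact mul_ne_zero hX0 hXm (by linear_combination h)
      refine key (X ^ 3 - X) (X ^ 2 + 1) hA hXp (by rw [hdy]; ring)
        (sub_mem (pow_mem hXW 3) hXW) (add_mem (pow_mem hXW 2) W.one_mem) ?_
      refine unit_orV (u := ((1 / 2 : ℚ) : Ω) * X) (v := 1 - ((1 / 2 : ℚ) : Ω) * X ^ 2)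
        (sub_mem (pow_mem hXW 3) hXW) (add_mem (pow_mem hXW 2) W.one_mem)
        (mul_mem (hQW _) hXW) (sub_mem W.one_mem (mul_mem (hQW _) (pow_mem hXW 2))) ?_
      push_cast
      ring
    · change ∃ t : Ω, _ ∧ _ ∧ algebraMap F Ω (aeval x (gA 2)) / t ^ 2 ∈ W ∧
        t ^ 2 / algebraMap F Ω (aeval x (gA 2)) ∈ W
      rw [e2, map_add, map_pow]
      have hA : X ^ 3 + X ≠ 0 := by
        intro h
        exact mul_ne_zero hX0 hXp (by linear_combination h)
      refine key (X ^ 3 + X) (X ^ 2 - 1) hA hXm (by rw [hdy]; ring)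
        (add_mem (pow_mem hXW 3) hXW) (sub_mem (pow_mem hXW 2) W.one_mem) ?_
      refine unit_orV (u := ((1 / 2 : ℚ) : Ω) * X) (v := -1 - ((1 / 2 : ℚ) : Ω) * X ^ 2)
        (add_mem (pow_mem hXW 3) hXW) (sub_mem (pow_mem hXW 2) W.one_mem)
        (mul_mem (hQW _) hXW) (sub_mem (neg_mem W.one_mem) (mul_mem (hQW _) (pow_mem hXW 2))) ?_
      push_cast
      ring
  · have hX2 : X ^ 2 ∉ W := by
      intro h
      have h1 : X⁻¹ ∈ W := (W.mem_or_inv_mem X).resolve_left hXW
      apply hXW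
      have h2 : X = X ^ 2 * X⁻¹ := by field_simp
      rw [h2]
      exact mul_mem h h1
    have hX4 : X ^ 4 ∉ W := by
      intro h
      have h1 : X⁻¹ ∈ W := (W.mem_or_inv_mem X).resolve_left hXW
      apply hXW
      have h2 : X = X ^ 4 * X⁻¹ ^ 3 := by field_simp
      rw [h2]
      exact mul_mem h (pow_mem h1 3)
    fin_cases j
    · change ∃ t : Ω, _ ∧ _ ∧ algebraMap F Ω (aeval x (gA 0)) / t ^ 2 ∈ W ∧
        t ^ 2 / algebraMap F Ω (aeval x (gA 0)) ∈ W
      rw [e0, map_sub, map_pow, map_one]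
      obtain ⟨u1, u2⟩ := unit_one_addV hX4 (neg_mem W.one_mem)
      refine ⟨X ^ 2, pow_mem hXU 2, pow_ne_zero 2 hX0, ?_, ?_⟩
      · convert u1 using 1
        field_simp
        ring
      · convert u2 using 1
        have h1 : 1 + -1 * (X ^ 4)⁻¹ = (X ^ 4 - 1) / X ^ 4 := by
          field_simp
          ring
        rw [h1, inv_div]
        congr 1
        ring
    · change ∃ t : Ω, _ ∧ _ ∧ algebraMap F Ω (aeval x (gA 1)) / t ^ 2 ∈ W ∧
        t ^ 2 / algebraMap F Ω (aeval x (gA 1)) ∈ W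
      rw [e1, map_sub, map_pow]
      have hA : X ^ 3 - X ≠ 0 := by
        intro h
        exact mul_ne_zero hX0 hXm (by linear_combination h)
      obtain ⟨u1, u2⟩ := unit_one_addV hX2 W.one_mem
      refine keyI (X ^ 2 + 1) _ hXp u1 u2 ?_ (X ^ 3 - X) hA (by rw [hdy]; ring)
      field_simp
    · change ∃ t : Ω, _ ∧ _ ∧ algebraMap F Ω (aeval x (gA 2)) / t ^ 2 ∈ W ∧
        t ^ 2 / algebraMap F Ω (aeval x (gA 2)) ∈ W
      rw [e2, map_add, map_pow]
      have hA : X ^ 3 + X ≠ 0 := by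
        intro h
        exact mul_ne_zero hX0 hXp (by linear_combination h)
      obtain ⟨u1, u2⟩ := unit_one_addV hX2 (neg_mem W.one_mem)
      refine keyI (X ^ 2 - 1) _ hXm u1 u2 ?_ (X ^ 3 + X) hA (by rw [hdy]; ring)
      field_simp
      ring

end Pool.Agent.K3h82.BP
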