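import Pool.Agent.K3h82.BP.Core
import Pool.Agent.K3h82.BP.PosU
import Pool.Agent.K3h82.BP.Unr
import Pool.Agent.K3h82.BP.DefS
import Pool.Agent.K3h82.BP.Bir

/-!
# Sections of fundamental groups of the twists by a prime of `y² = x⁵ - x`
-/

set_option autoImplicit false
set_option linter.all false

open Polynomial Pool.Agent.TH954 IsDedekindDomain NumberField Pool.Agent.TH213.SEL
  Pool.Agent.TH942 WeierstrassCurve Pool.Agent.W620.SC

namespace Pool.Agent.K3h82.BP

attribute [-instance] DivisionRing.toRatAlgebra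
attribute [local instance 1] DivisionRing.toRatAlgebra

open scoped Classical in
/-- **sections given by local points** -/
theorem sel {p : ℕ} (hp : p.Prime) {d : ℤ} (hd : d ∣ 2 * p)
    {M0 : ℕ} (hM1 : 1 ≤ M0)
    (hM : ∀ a : ℚ, (a = 1 ∨ a = -1 ∨ a = 4 ∨ a = -4) → ShaKilledBy (sw a (0 : ℚ)) M0)
    {F Ω M B : Type} [Field F] [Field Ω] [Field M] [Field B] [Algebra ℚ F] [Algebra F Ω]
    [Algebra ℚ Ω] [Algebra F M] [Algebra ℚ M] [Algebra ℚ B] [IsScalarTower ℚ F Ω]
    [IsScalarTower ℚ F M] [IsAlgClosure F Ω] [IsAlgClosure ℚ B] (x : F)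
    (hx : Transcendental ℚ x)
    (U : Set (ValuationSubring F)) (hU : ∀ O ∈ U, ∀ c : ℚ, algebraMap ℚ F c ∈ O)
    (e : M →ₐ[F] Ω) (he : e.fieldRange = unramified F Ω U)
    (s : GalSection ℚ F M B) (pl : Places ℚ M) (hpl : IsGivenBy s pl) (y : M)
    (hy : ∀ g, s.s g y = y) (hxy : (d : M) * y ^ 2 = algebraMap F M (x ^ 5 - x)) :
    VanishesAt pl x⁻¹ ∨ VanishesAt pl x ∨ VanishesAt pl (x - 1) ∨ VanishesAt pl (x + 1) := by
  haveI hΩ1 : IsAlgClosed Ω := IsAlgClosure.isAlgClosed F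
  haveI hΩ2 : Algebra.IsAlgebraic F Ω := IsAlgClosure.isAlgebraic
  haveI hcF : CharZero F := charZero_of_injective_algebraMap (algebraMap ℚ F).injective
  haveI hcΩ : CharZero Ω :=
    charZero_of_injective_algebraMap (algebraMap F Ω).injective
  haveI hcM : CharZero M :=
    charZero_of_injective_algebraMap (algebraMap F M).injective
  haveI hMalg : Algebra.IsAlgebraic F M := Algebra.IsAlgebraic.of_injective e e.injective
  have hd0 : d ≠ 0 := by
    rintro rfl
    have h1 := zero_dvd_iff.1 hd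
    have : (p : ℤ) ≠ 0 := by exact_mod_cast hp.ne_zero
    omega
  have hxe : ∀ e : ℚ, x ≠ e := by
    intro e h
    apply hx
    rw [h, ← eq_ratCast (algebraMap ℚ F) e]
    exact isAlgebraic_algebraMap e
  have hxeM : ∀ q : ℚ, algebraMap F M x ≠ q := by
    intro q h
    apply hxe q
    apply (algebraMap F M).injective
    rw [h, map_ratCast]
  obtain ⟨c, w, hc, hw, hcw⟩ := exists_cw hp hd x hx s (fun j => by
    obtain ⟨z, hz⟩ := IsAlgClosed.exists_pow_nat_eq (algebraMap F Ω (aeval x (gA j))) two_pos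
    have h1 : z ∈ unramified F Ω U := gA_unr hU hx hd0 (y := e y)
      (by rw [← he]; exact ⟨y, rfl⟩)
      (by
        have h2 := congrArg e hxy
        rw [map_mul, map_pow, map_intCast, e.commutes] at h2
        exact h2) j hz
    rw [← he] at h1
    obtain ⟨W, hW⟩ := h1
    have hW' : e W = z := hW
    refine ⟨W, ?_⟩
    have h3 : e (W ^ 2) = e (algebraMap F M (aeval x (gA j))) := by
      rw [map_pow, e.commutes, hW', hz]
    exact e.injective h3) y hy hxy pl hpl
  have hX1 : algebraMap F M x - 1 ≠ 0 := by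
    intro h
    apply hxeM 1
    rw [Rat.cast_one]
    linear_combination h
  obtain ⟨b, k, a, q, n, hk, hE⟩ := exists_ell hX1 hc hcw
  have ha : a = 1 ∨ a = -1 ∨ a = 4 ∨ a = -4 := by
    rcases hk with ⟨-, h⟩ | ⟨-, h⟩
    · rcases h with ⟨h, -⟩ | ⟨h, -⟩ | ⟨h, -⟩ | ⟨h, -⟩ <;> simp [h]
    · rcases h with ⟨h, -⟩ | ⟨h, -⟩ <;> simp [h]
  have hSI := shortInt4 ha
  haveI hfin4 := finite4 ha
  have hD : 4 * a ^ 3 + 27 * (0 : ℚ) ^ 2 ≠ 0 := hSI.disc
  set X' : M := crdE b k (algebraMap F M x) with hX'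
  set Y' : M := (q : M) * w * (algebraMap F M x - 1)⁻¹ ^ n with hY'
  have hEq : Y' ^ 2 = X' ^ 3 + algebraMap ℚ M a * X' + algebraMap ℚ M 0 := by
    rw [hE, map_zero, add_zero, eq_ratCast (algebraMap ℚ M)]
  have hX's : ∀ g, s.s g X' = X' := by
    intro g
    have h1 : algebraMap F M (crdE b k x) = X' := crdE_map b k x
    rw [← h1, (s.s g).commutes]
  have hY's : ∀ g, s.s g Y' = Y' := by
    intro g
    rw [hY', map_mul, map_mul, hw, map_pow, map_inv₀, map_sub, (s.s g).commutes, map_one,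
      map_ratCast]
  have hns : ((sw a (0 : ℚ)).baseChange M).toAffine.Nonsingular X' Y' := by
    rw [base_eq]
    apply sw_nonsing
    · have h := (map_ne_zero (algebraMap ℚ M)).2 hD
      simpa only [map_add, map_mul, map_pow, map_ofNat] using h
    · exact hEq
  set P : ((sw a (0 : ℚ)).baseChange M).toAffine.Point := .some _ _ hns with hP
  have hPfix : ∀ g : B ≃ₐ[ℚ] B, pm (sw a (0 : ℚ))
      ((s.s g : M →ₐ[F] M).restrictScalars ℚ) P = P := by
    intro g
    obtain ⟨h', e'⟩ := pm_some (E := sw a (0 : ℚ))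
      ((s.s g : M →ₐ[F] M).restrictScalars ℚ) hns
    rw [hP, e', Affine.Point.some.injEq]
    exact ⟨hX's g, hY's g⟩
  obtain ⟨z, -, hz⟩ := et_fix (F := F) (Ω := Ω) hSI
    (finProp_of hSI (smallRank_of_finite _ (finite4 ha)) 1) hM1 (hM a ha) ∅
    (fun f hf => absurd hf (Set.notMem_empty f)) (Set.toFinite _) U hU e he.symm.le he.le
    (fun _ : Fin 1 => P) (fun f hf => absurd hf (Set.notMem_empty f)) s (fun g _ => hPfix g) pl hpl
  obtain ⟨p1, p2⟩ := pos_crdE_u hxeM b hk
  have hQv : ∀ v (e : ℚ), (e : M) ∈ (pl v).W := by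
    intro v e
    rw [← eq_ratCast (algebraMap ℚ M) e]
    exact (Plc.val_alg (pl := pl v) e).mem
  have hpos : ∃ i : Fin 4, ∀ v, PosI i (pl v).W (algebraMap F M x) := by
    match hz0 : z 0 with
    | .zero =>
      obtain ⟨i, hi⟩ := p1
      refine ⟨i, fun v => hi _ (hQv v) ?_⟩
      have h1 := hz v 0
      rw [hz0] at h1
      exact val_x_zero (pl v) hEq h1
    | .some a' b' h =>
      obtain ⟨i, hi⟩ := p2 a' b' (by
        have h1 := sw_eqn.1 h.1
        rw [h1, add_zero])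
      refine ⟨i, fun v => hi _ (hQv v) ?_⟩
      have h1 := hz v 0
      rw [hz0] at h1
      have h2 := (val_x (pl v) h1).sub (Plc.val_alg (pl := pl v) a')
      rw [sub_self, eq_ratCast (algebraMap ℚ M)] at h2
      intro h3
      have h4 : X' - (a' : M) ≠ 0 := by
        rw [sub_ne_zero, hX']
        refine crdE_ne hxeM b ?_ a'
        rcases hk with ⟨-, h⟩ | ⟨-, h⟩
        · rcases h with ⟨-, rfl | rfl⟩ | ⟨-, rfl | rfl⟩ | ⟨-, rfl | rfl⟩ | ⟨-, rfl | rfl⟩ <;> norm_num
        · rcases h with ⟨-, rfl | rfl⟩ | ⟨-, rfl | rfl⟩ <;> norm_num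
      obtain ⟨c', hc'⟩ := Plc.val_of_mem h3
      have h5 := h2.mul hc'
      rw [mul_inv_cancel₀ h4, zero_mul] at h5
      have h6 : (pl v).val (1 : M) (1 : AlgebraicClosure (v.adicCompletion ℚ)) := by
        have := Plc.val_alg (pl := pl v) (1 : ℚ)
        rwa [map_one, map_one] at this
      exact one_ne_zero (h6.unique h5)
  obtain ⟨i, hi⟩ := hpos
  have hv0 : ∀ (v) (z : M), z ∉ (pl v).W → (pl v).val z⁻¹ 0 := fun v z h =>
    Plc.val_inv_of_notMem h
  fin_cases i
  · left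
    intro v
    have h1 := hv0 v _ (hi v)
    rw [map_inv₀]
    exact h1
  · right; left
    intro v
    have h1 := hv0 v _ (hi v)
    change (pl v).val (algebraMap F M x)⁻¹⁻¹ 0 at h1
    rwa [inv_inv] at h1
  · right; right; left
    intro v
    have h1 := hv0 v _ (hi v)
    change (pl v).val (algebraMap F M x - 1)⁻¹⁻¹ 0 at h1
    rw [inv_inv] at h1
    rw [map_sub, map_one]
    exact h1
  · right; right; right
    intro v
    have h1 := hv0 v _ (hi v)
    change (pl v).val (algebraMap F M x + 1)⁻¹⁻¹ 0 at h1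
    rw [inv_inv] at h1
    rw [map_add, map_one]
    exact h1

end Pool.Agent.K3h82.BP
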