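import Pool.Agent.K3h82.BT.Twist
import Pool.Agent.K3h82.BT.Arith

/-!
# Square roots along a section, general form
-/

set_option autoImplicit false
set_option linter.all false

open Polynomial FF Pool.Agent.Y157.PS Pool.Agent.TH954 IsDedekindDomain NumberField

namespace Pool.Agent.K3h82.BP

section twist

variable {k F N B : Type} [Field k] [CharZero k] [Field F] [Field N] [Field B] [Algebra k F]
  [Algebra F N] [Algebra k N] [Algebra k B] [IsScalarTower k F N] [Algebra.IsAlgebraic F N]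
  [IsAlgClosure k B]

/-- a square root is, up to a constant, fixed by the section -/
theorem exists_tw (s : GalSection k F N B) {z : N} {f : F}
    (hf : f ≠ 0) (hz : z ^ 2 = algebraMap F N f) :
    ∃ (D : k) (w : N), D ≠ 0 ∧ (∀ g, s.s g w = w) ∧ algebraMap k N D * w ^ 2 = algebraMap F N f := by
  classical
  have halg : Algebra.IsAlgebraic k B := IsAlgClosure.isAlgebraic
  haveI : IsAlgClosed B := IsAlgClosure.isAlgClosed k
  haveI : CharZero B := charZero_of_injective_algebraMap (algebraMap k B).injective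
  haveI : Normal k B := IsAlgClosure.normal k B
  haveI : IsGalois k B := IsGalois.mk
  have hz0 : z ≠ 0 := by
    rintro rfl
    rw [zero_pow two_ne_zero] at hz
    exact hf ((map_eq_zero (algebraMap F N)).1 hz.symm)
  have h1 : ∀ σ : B ≃ₐ[k] B, ∃ c : B, (c = 1 ∨ c = -1) ∧ s.s σ z = s.j c * z := by
    intro σ
    have h2 : (s.s σ z - z) * (s.s σ z + z) = 0 := by
      have h3 : (s.s σ z) ^ 2 = z ^ 2 := by
        rw [← map_pow, hz, (s.s σ).commutes]
      linear_combination h3
    rcases mul_eq_zero.1 h2 with h | h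
    · exact ⟨1, Or.inl rfl, by rw [map_one, one_mul, sub_eq_zero.1 h]⟩
    · exact ⟨-1, Or.inr rfl, by rw [map_neg, map_one, neg_one_mul, eq_neg_of_add_eq_zero_left h]⟩
  choose χ hχ1 hχ2 using h1
  have hχsq : ∀ σ, χ σ ^ 2 = 1 := by
    intro σ
    rcases hχ1 σ with h | h
    · rw [h, one_pow]
    · rw [h, neg_one_sq]
  have hfix : ∀ σ σ' : B ≃ₐ[k] B, σ (χ σ') = χ σ' := by
    intro σ σ'
    rcases hχ1 σ' with h | h
    · rw [h, map_one]
    · rw [h, map_neg, map_one]
  have hinj : ∀ a b : B, s.j a * z = s.j b * z → a = b := fun a b h =>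
    s.j.injective (mul_right_cancel₀ hz0 h)
  obtain ⟨E, hE, hE'⟩ := cont_fix s.s s.cont z
  obtain ⟨c, hc, hcχ⟩ := Pool.Agent.Y655.PS.resolvent (⊤ : Subgroup (B ≃ₐ[k] B)) χ
    (fun σ _ h => by
      have := hχsq σ
      rw [h, zero_pow two_ne_zero] at this
      exact zero_ne_one this)
    (fun σ _ σ' _ => by
      apply hinj
      have e1 : s.s (σ * σ') z = s.s σ (s.s σ' z) := by rw [map_mul]; rfl
      rw [← hχ2, e1, hχ2 σ', map_mul, s.sec, hfix, hχ2 σ, map_mul]
      ring)
    (fun σ _ σ' _ => hfix σ σ') E (fun σ hσ _ => by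
      apply hinj
      rw [← hχ2, hE' σ hσ, map_one, one_mul])
  have hcN : s.j c ≠ 0 := (_root_.map_ne_zero s.j).2 hc
  obtain ⟨a, ha⟩ : ∃ a : k, algebraMap k B a = c ^ 2 := by
    have h1 : c ^ 2 ∈ (⊥ : IntermediateField k B) := by
      rw [InfiniteGalois.mem_bot_iff_fixed]
      intro σ
      rw [map_pow, hcχ σ trivial, mul_pow, hχsq, one_mul]
    exact IntermediateField.mem_bot.1 h1
  refine ⟨a, z / s.j c, ?_, fun σ => ?_, ?_⟩
  · rintro rfl
    rw [map_zero] at ha
    exact pow_ne_zero 2 hc ha.symm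
  · have hχ0 : s.j (χ σ) ≠ 0 := by
      refine (_root_.map_ne_zero s.j).2 fun h3 => ?_
      have := hχsq σ
      rw [h3, zero_pow two_ne_zero] at this
      exact zero_ne_one this
    rw [map_div₀, s.sec, hcχ σ trivial, hχ2, map_mul, mul_div_mul_left _ _ hχ0]
  · have h2 : algebraMap k N a = s.j c ^ 2 := by
      rw [← map_pow, ← ha, s.j.commutes]
    rw [h2, div_pow, hz, mul_div_cancel₀ _ (pow_ne_zero 2 hcN)]

/-- squares of fixed elements -/
theorem sq_fixed (s : GalSection k F N B) {q : N} {D : k}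
    (hq : ∀ g, s.s g q = q) (hqD : q ^ 2 = algebraMap k N D) : ∃ r : k, r ^ 2 = D := by
  have halg : Algebra.IsAlgebraic k B := IsAlgClosure.isAlgebraic
  haveI : IsAlgClosed B := IsAlgClosure.isAlgClosed k
  haveI : CharZero B := charZero_of_injective_algebraMap (algebraMap k B).injective
  haveI : Normal k B := IsAlgClosure.normal k B
  haveI : IsGalois k B := IsGalois.mk
  obtain ⟨b, hb⟩ := IsAlgClosed.exists_pow_nat_eq (algebraMap k B D) two_pos
  have h1 : ∃ b : B, b ^ 2 = algebraMap k B D ∧ s.j b = q := by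
    have h2 : (s.j b - q) * (s.j b + q) = 0 := by
      have h3 : s.j b ^ 2 = q ^ 2 := by
        rw [← map_pow, hb, s.j.commutes, hqD]
      linear_combination h3
    rcases mul_eq_zero.1 h2 with h | h
    · exact ⟨b, hb, sub_eq_zero.1 h⟩
    · exact ⟨-b, by rw [neg_sq, hb], by rw [map_neg, eq_neg_of_add_eq_zero_left h, neg_neg]⟩
  obtain ⟨b, hb, hbq⟩ := h1
  have h2 : b ∈ (⊥ : IntermediateField k B) := by
    rw [InfiniteGalois.mem_bot_iff_fixed]
    intro σ
    have h3 : s.j (σ b) = s.j b := by rw [← s.sec, hbq, hq]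
    exact s.j.injective h3
  obtain ⟨r, hr⟩ := IntermediateField.mem_bot.1 h2
  refine ⟨r, (algebraMap k B).injective ?_⟩
  rw [map_pow, hr, hb]

end twist

section par

attribute [-instance] DivisionRing.toRatAlgebra
attribute [local instance 1] DivisionRing.toRatAlgebra

variable {F N B : Type} [Field F] [Field N] [Field B] [Algebra ℚ F] [Algebra F N]
  [Algebra ℚ N] [Algebra ℚ B] [IsScalarTower ℚ F N] [Algebra.IsAlgebraic F N]
  [IsAlgClosure ℚ B]

/-- the three products of four branch points -/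
noncomputable def gA (j : Fin 3) : ℚ[X] := ![X ^ 4 - 1, X ^ 3 - X, X ^ 3 + X] j

/-- **the twists of the genus one quotients** -/
theorem exists_par (x : F) (hx : Transcendental ℚ x) (s : GalSection ℚ F N B)
    (hW : ∀ j, ∃ W : N, W ^ 2 = algebraMap F N (aeval x (gA j)))
    (p : ℕ) [hp : Fact p.Prime] :
    ∃ (j : Fin 3) (D : ℚ) (w : N), D ≠ 0 ∧ (∀ g, s.s g w = w) ∧ Even (padicValRat p D) ∧
      algebraMap ℚ N D * w ^ 2 = algebraMap F N (aeval x (gA j)) := by
  have hne : ∀ q : ℚ[X], q ≠ 0 → aeval x q ≠ 0 := by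
    intro q hq h0
    exact hx ⟨q, hq, h0⟩
  have e0 : aeval x (gA 0) = x ^ 4 - 1 := by simp [gA]
  have e1 : aeval x (gA 1) = x ^ 3 - x := by simp [gA]
  have e2 : aeval x (gA 2) = x ^ 3 + x := by simp [gA]
  have hx0 : x ≠ 0 := by
    rintro rfl
    exact hx isAlgebraic_zero
  have hf0 : x ^ 4 - 1 ≠ 0 := by
    have h1 := hne (X ^ 4 - C 1) (X_pow_sub_C_ne_zero (by norm_num) 1)
    simpa using h1
  have hf : ∀ j, aeval x (gA j) ≠ 0 := by
    intro j
    fin_cases j
    · change aeval x (gA 0) ≠ 0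
      rw [e0]
      exact hf0
    · change aeval x (gA 1) ≠ 0
      rw [e1]
      intro h0
      apply hf0
      have h1 : x * (x ^ 2 - 1) = 0 := by linear_combination h0
      have h2 := (mul_eq_zero.1 h1).resolve_left hx0
      linear_combination (x ^ 2 + 1) * h2
    · change aeval x (gA 2) ≠ 0
      rw [e2]
      intro h0
      apply hf0
      have h1 : x * (x ^ 2 + 1) = 0 := by linear_combination h0
      have h2 := (mul_eq_zero.1 h1).resolve_left hx0
      linear_combination (x ^ 2 - 1) * h2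
  choose W hW using hW
  choose D w hD hw he using fun j => exists_tw (k := ℚ) s (hf j) (hW j)
  have hXN : ∀ f : F, f ≠ 0 → algebraMap F N f ≠ 0 := fun f hf => (_root_.map_ne_zero _).2 hf
  have hw0 : ∀ j, w j ≠ 0 := by
    intro j h
    have h1 := he j
    rw [h, zero_pow two_ne_zero, mul_zero] at h1
    exact hXN _ (hf j) h1.symm
  obtain ⟨r, hr⟩ := sq_fixed (k := ℚ) s
    (q := algebraMap F N (x * (x ^ 4 - 1)) / (w 0 * w 1 * w 2))
    (D := D 0 * D 1 * D 2) (fun g => by
      rw [map_div₀, (s.s g).commutes, map_mul (s.s g), map_mul (s.s g), hw, hw, hw]) (by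
      have h4 : (w 0 * w 1 * w 2) ^ 2 ≠ 0 :=
        pow_ne_zero 2 (mul_ne_zero (mul_ne_zero (hw0 0) (hw0 1)) (hw0 2))
      rw [div_pow, div_eq_iff h4]
      have h5 : algebraMap ℚ N (D 0 * D 1 * D 2) * (w 0 * w 1 * w 2) ^ 2 =
          (algebraMap ℚ N (D 0) * w 0 ^ 2) * (algebraMap ℚ N (D 1) * w 1 ^ 2) *
            (algebraMap ℚ N (D 2) * w 2 ^ 2) := by
        rw [map_mul, map_mul]
        ring
      rw [h5, he, he, he, e0, e1, e2, ← map_mul, ← map_mul, ← map_pow]
      congr 1
      ring)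
  rcases Pool.Agent.K3h82.BT.even_one (p := p) (hD 0) (hD 1) (hD 2) hr with h | h | h
  · exact ⟨0, D 0, w 0, hD 0, hw 0, h, he 0⟩
  · exact ⟨1, D 1, w 1, hD 1, hw 1, h, he 1⟩
  · exact ⟨2, D 2, w 2, hD 2, hw 2, h, he 2⟩

end par

end Pool.Agent.K3h82.BP
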